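import Pool.Agent.Helper819.ZE.Defs

set_option autoImplicit false
set_option linter.unusedVariables false
set_option linter.unusedSectionVars false
set_option linter.dupNamespace false

namespace Pool.Agent.Helper447.D71.E
open Pool.Agent.Helper447.D71
variable {K : Type*} [Field K] [Algebra ℂ K]

namespace nz


theorem nz_aux {K : Type*} [Field K] [Algebra ℂ K] (a b v : K)
    (h : AlgebraicIndependent ℂ ![a, b, v]) (P : MvPolynomial (Fin 3) ℂ) (p : Fin 3 → ℂ)
    (hp : MvPolynomial.eval p P ≠ 0) : MvPolynomial.aeval ![a, b, v] P ≠ 0 := by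
  intro h0
  have h1 : P = 0 := by
    apply h
    rw [h0, map_zero]
  rw [h1, map_zero] at hp
  exact hp rfl

theorem nz {K : Type*} [Field K] [Algebra ℂ K] (a b v : K) (h : AlgebraicIndependent ℂ ![a, b, v]) :
    a ≠ 0 ∧ b ≠ 0 ∧ v ≠ 0 ∧ fc a b ≠ 0 ∧ fw0 a b v ≠ 0 ∧ fw1 a b v ≠ 0 ∧ fw3 a b v ≠ 0 ∧
      fs a b v ≠ 0 ∧ ft a b v ≠ 0 ∧ fde a b v ≠ 0 := by
  have e0 : MvPolynomial.aeval ![a, b, v] (MvPolynomial.X 0 : MvPolynomial (Fin 3) ℂ) = a := by simp
  have e1 : MvPolynomial.aeval ![a, b, v] (MvPolynomial.X 1 : MvPolynomial (Fin 3) ℂ) = b := by simp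
  have e2 : MvPolynomial.aeval ![a, b, v] (MvPolynomial.X 2 : MvPolynomial (Fin 3) ℂ) = v := by simp
  refine ⟨?_, ?_, ?_, ?_, ?_, ?_, ?_, ?_, ?_, ?_⟩
  · have := nz_aux a b v h (MvPolynomial.X 0) ![1, 0, 1] (by simp)
    rwa [e0] at this
  · have := nz_aux a b v h (MvPolynomial.X 1) ![0, 1, 0] (by simp)
    rwa [e1] at this
  · have := nz_aux a b v h (MvPolynomial.X 2) ![1, 0, 1] (by simp)
    rwa [e2] at this
  · have := nz_aux a b v h (fc (MvPolynomial.X 0) (MvPolynomial.X 1)) ![1, 0, 1] (by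
      simp [fc]; norm_num)
    simpa only [fc, map_add, map_sub, map_mul, map_pow, map_one, map_ofNat, e0, e1, e2] using this
  · have := nz_aux a b v h (fw0 (MvPolynomial.X 0) (MvPolynomial.X 1) (MvPolynomial.X 2)) ![1, 0, 1] (by
      simp [fc, fw0, fw1, fq0])
    simpa only [fc, fw0, fw1, fq0, map_add, map_sub, map_mul, map_pow, map_one, map_ofNat, map_neg, e0, e1, e2] using this
  · have := nz_aux a b v h (fw1 (MvPolynomial.X 0) (MvPolynomial.X 1) (MvPolynomial.X 2)) ![1, 0, 1] (by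
      simp [fc, fw0, fw1, fq0]; norm_num)
    simpa only [fc, fw0, fw1, fq0, map_add, map_sub, map_mul, map_pow, map_one, map_ofNat, map_neg, e0, e1, e2] using this
  · have := nz_aux a b v h (fw3 (MvPolynomial.X 0) (MvPolynomial.X 1) (MvPolynomial.X 2)) ![1, 0, 1] (by
      simp [fc, fw0, fw1, fq0, fw3]; norm_num)
    simpa only [fc, fw0, fw1, fq0, fw3, map_add, map_sub, map_mul, map_pow, map_one, map_ofNat, map_neg, e0, e1, e2] using this
  · have := nz_aux a b v h (fs (MvPolynomial.X 0) (MvPolynomial.X 1) (MvPolynomial.X 2)) ![1, 0, 1] (by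
      simp [fc, fw0, fw1, fq0, fw3, fs, fA3]; norm_num)
    simpa only [fc, fw0, fw1, fq0, fw3, fs, fA3, map_add, map_sub, map_mul, map_pow, map_one, map_ofNat, map_neg, e0, e1, e2] using this
  · have := nz_aux a b v h (ft (MvPolynomial.X 0) (MvPolynomial.X 1) (MvPolynomial.X 2)) ![1, 0, 1] (by
      simp [fc, fw0, fw1, fq0, fw3, fs, fA3, ft, fe2, fe3, fA2, fA1, fm, fDl, fkap]; norm_num)
    simpa only [fc, fw0, fw1, fq0, fw3, fs, fA3, ft, fe2, fe3, fA2, fA1, fm, fDl, fkap, map_add, map_sub, map_mul, map_pow, map_one, map_ofNat, map_neg, e0, e1, e2] using this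
  · have := nz_aux a b v h (fde (MvPolynomial.X 0) (MvPolynomial.X 1) (MvPolynomial.X 2)) ![1, 0, 1] (by
      simp [fc, fw0, fw1, fq0, fw3, fDl, fkap, fde]; norm_num)
    simpa only [fc, fw0, fw1, fq0, fw3, fDl, fkap, fde, map_add, map_sub, map_mul, map_pow, map_one, map_ofNat, map_neg, e0, e1, e2] using this


end nz

alias nz := nz.nz

end Pool.Agent.Helper447.D71.E
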