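import Pool.Agent.Helper819.ZE.Defs
import Pool.Agent.Helper819.ZE.L_nz

set_option autoImplicit false
set_option linter.unusedVariables false
set_option linter.unusedSectionVars false
set_option linter.dupNamespace false

namespace Pool.Agent.Helper447.D71.E
open Pool.Agent.Helper447.D71
variable {K : Type*} [Field K] [Algebra ℂ K]

namespace BB_mem


theorem BB_mem_id (a b v w1 : K)
    (h : w1 = a * (b ^ 2 * (4 * a + 1)) - (3 * a ^ 2 - 4 * b ^ 3 + 1) * v) :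
    b * (b * (b * fA3 (-b * w1 - a) w1 (v - a * w1) + fA2 (-b * w1 - a) w1 (v - a * w1))
      + fA1 (-b * w1 - a) w1 (v - a * w1)) + fA0 (-b * w1 - a) w1 (v - a * w1) = 0 := by
  unfold fA3 fA2 fA1 fA0 fm fkap
  linear_combination h

theorem BB_mem_be3 (a b v : K) : b * fe3 a b v = - fA0 (fw0 a b v) (fw1 a b v) (fw3 a b v) := by
  have h1 := BB_mem_id a b v (fw1 a b v) (by unfold fw1 fq0 fc; ring)
  have h2 : b * fe3 a b v + fA0 (fw0 a b v) (fw1 a b v) (fw3 a b v) = 0 := by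
    unfold fe3 fe2 fs
    exact h1
  linear_combination h2

theorem BB_mem_bt (a b v : K) : b * ft a b v =
    - fm (fw0 a b v) (fw1 a b v) (fw3 a b v) * (1 + 3 * fw0 a b v ^ 2) * fs a b v
      + fDl (fw0 a b v) (fw1 a b v) * fe3 a b v := by
  have h1 := BB_mem_be3 a b v
  have h2 : fe3 a b v = b * fe2 a b v + fA1 (fw0 a b v) (fw1 a b v) (fw3 a b v) := rfl
  have h3 : ∀ w0 w1 w3 : K, - fDl w0 w1 * w1 + 4 * fA0 w0 w1 w3 = - (1 + 3 * w0 ^ 2) * fA3 w0 w1 w3 := by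
    intro w0 w1 w3
    unfold fDl fA0 fA3
    ring
  have h4 := h3 (fw0 a b v) (fw1 a b v) (fw3 a b v)
  have h5 : fs a b v = fA3 (fw0 a b v) (fw1 a b v) (fw3 a b v) := rfl
  have h6 : ft a b v = fDl (fw0 a b v) (fw1 a b v) * fe2 a b v
    - 4 * fm (fw0 a b v) (fw1 a b v) (fw3 a b v) * fe3 a b v := rfl
  have h7 : fA1 (fw0 a b v) (fw1 a b v) (fw3 a b v)
    = fw1 a b v * fm (fw0 a b v) (fw1 a b v) (fw3 a b v) := rfl
  rw [h5, h6]
  generalize fDl (fw0 a b v) (fw1 a b v) = Dl at *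
  generalize fm (fw0 a b v) (fw1 a b v) (fw3 a b v) = m at *
  generalize fA0 (fw0 a b v) (fw1 a b v) (fw3 a b v) = A0 at *
  generalize fA3 (fw0 a b v) (fw1 a b v) (fw3 a b v) = A3 at *
  generalize fA1 (fw0 a b v) (fw1 a b v) (fw3 a b v) = A1 at *
  linear_combination (-4 * m) * h1 - Dl * h2 + m * h4 - Dl * h7

theorem BB_mem_b2t (a b v : K) : b ^ 2 * ft a b v =
    - fm (fw0 a b v) (fw1 a b v) (fw3 a b v) * (1 + 3 * fw0 a b v ^ 2) * (b * fs a b v)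
      - fDl (fw0 a b v) (fw1 a b v) * fA0 (fw0 a b v) (fw1 a b v) (fw3 a b v) := by
  linear_combination b * BB_mem_bt a b v + fDl (fw0 a b v) (fw1 a b v) * BB_mem_be3 a b v

theorem BB_mem (a b v : K) : fw0 a b v ∈ BB a b v ∧ fw1 a b v ∈ BB a b v ∧
    fw3 a b v ∈ BB a b v ∧ b * fs a b v ∈ BB a b v ∧ b * fe2 a b v ∈ BB a b v ∧
    (fde a b v)⁻¹ ∈ BB a b v ∧ fs a b v ∈ BB a b v ∧ fe2 a b v ∈ BB a b v ∧
    fe3 a b v ∈ BB a b v ∧ ft a b v ∈ BB a b v ∧ b * ft a b v ∈ BB a b v ∧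
    b ^ 2 * ft a b v ∈ BB a b v ∧ fde a b v ∈ BB a b v := by
  have g0 : fw0 a b v ∈ BB a b v := Algebra.subset_adjoin (by simp)
  have g1 : fw1 a b v ∈ BB a b v := Algebra.subset_adjoin (by simp)
  have g3 : fw3 a b v ∈ BB a b v := Algebra.subset_adjoin (by simp)
  have gbs : b * fs a b v ∈ BB a b v := Algebra.subset_adjoin (by simp)
  have gbe : b * fe2 a b v ∈ BB a b v := Algebra.subset_adjoin (by simp)
  have gde : (fde a b v)⁻¹ ∈ BB a b v := Algebra.subset_adjoin (by simp)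
  have n1 : (1 : K) ∈ BB a b v := one_mem _
  have n3 : (3 : K) ∈ BB a b v := ofNat_mem _ 3
  have n4 : (4 : K) ∈ BB a b v := ofNat_mem _ 4
  have n6 : (6 : K) ∈ BB a b v := ofNat_mem _ 6
  have n9 : (9 : K) ∈ BB a b v := ofNat_mem _ 9
  have hm : fm (fw0 a b v) (fw1 a b v) (fw3 a b v) ∈ BB a b v := by
    unfold fm
    exact add_mem (sub_mem (neg_mem g1) (mul_mem (mul_mem n9 (pow_mem g0 2)) g1))
      (mul_mem (mul_mem n6 g0) g3)
  have hk : fkap (fw0 a b v) (fw1 a b v) ∈ BB a b v := by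
    unfold fkap
    exact sub_mem (sub_mem n1 (mul_mem n4 g0)) (mul_mem n9 (pow_mem g1 3))
  have hA0 : fA0 (fw0 a b v) (fw1 a b v) (fw3 a b v) ∈ BB a b v := by
    unfold fA0
    exact add_mem (sub_mem (sub_mem (add_mem g1 g3) (mul_mem g0 g1))
      (mul_mem (mul_mem n3 (pow_mem g0 3)) g1)) (mul_mem (mul_mem n3 (pow_mem g0 2)) g3)
  have hA1 : fA1 (fw0 a b v) (fw1 a b v) (fw3 a b v) ∈ BB a b v := mul_mem g1 hm
  have hA2 : fA2 (fw0 a b v) (fw1 a b v) (fw3 a b v) ∈ BB a b v := by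
    unfold fA2
    exact add_mem (mul_mem g0 hk) (mul_mem (mul_mem n3 (pow_mem g1 2)) g3)
  have hx : 1 - 4 * fw0 a b v - 3 * fw1 a b v ^ 3 ∈ BB a b v :=
    sub_mem (sub_mem n1 (mul_mem n4 g0)) (mul_mem n3 (pow_mem g1 3))
  have hs : fs a b v ∈ BB a b v := by
    unfold fs fA3
    exact sub_mem (mul_mem g1 hx) (mul_mem n4 g3)
  have hy : 1 + 3 * fw0 a b v ^ 2 ∈ BB a b v := add_mem n1 (mul_mem n3 (pow_mem g0 2))
  have hDl : fDl (fw0 a b v) (fw1 a b v) ∈ BB a b v := by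
    unfold fDl
    exact add_mem (mul_mem hx hy)
      (mul_mem n4 (sub_mem (sub_mem n1 g0) (mul_mem n3 (pow_mem g0 3))))
  have he2 : fe2 a b v ∈ BB a b v := add_mem gbs hA2
  have he3 : fe3 a b v ∈ BB a b v := add_mem gbe hA1
  have ht : ft a b v ∈ BB a b v :=
    sub_mem (mul_mem hDl he2) (mul_mem (mul_mem n4 hm) he3)
  have hbt : b * ft a b v ∈ BB a b v := by
    rw [BB_mem_bt]
    exact add_mem (mul_mem (mul_mem (neg_mem hm) hy) hs) (mul_mem hDl he3)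
  have hb2t : b ^ 2 * ft a b v ∈ BB a b v := by
    rw [BB_mem_b2t]
    exact sub_mem (mul_mem (mul_mem (neg_mem hm) hy) gbs) (mul_mem hDl hA0)
  have hde : fde a b v ∈ BB a b v := mul_mem hDl hk
  exact ⟨g0, g1, g3, gbs, gbe, gde, hs, he2, he3, ht, hbt, hb2t, hde⟩


end BB_mem

alias BB_mem := BB_mem.BB_mem

end Pool.Agent.Helper447.D71.E
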