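import Pool.Agent.Helper819.ZE.Defs
import Pool.Agent.Helper819.ZE.L_nz
import Pool.Agent.Helper819.ZE.L_BB_mem

set_option autoImplicit false
set_option linter.unusedVariables false
set_option linter.unusedSectionVars false
set_option linter.dupNamespace false

namespace Pool.Agent.Helper447.D71.E
open Pool.Agent.Helper447.D71
variable {K : Type*} [Field K] [Algebra ℂ K]

namespace BB_V


private theorem BB_V_unit (V : ValuationSubring K) (x : V) (hx : IsUnit x) : ((x : K))⁻¹ ∈ V := by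
  obtain ⟨u, rfl⟩ := hx
  have e : (((u⁻¹ : Vˣ) : V) : K) * ((u : V) : K) = 1 := by
    have h := congrArg (fun z : V => (z : K)) u.inv_mul
    exact h
  rw [← eq_inv_of_mul_eq_one_left e]
  exact Subtype.prop _

theorem BB_V (a b v : K) (hind : AlgebraicIndependent ℂ ![a, b, v])
    (V : ValuationSubring K) (hV : ∀ c : ℂ, algebraMap ℂ K c ∈ V)
    (h0 : fw0 a b v ∈ V) (h1 : fw1 a b v ∈ V) (h3 : fw3 a b v ∈ V)
    (n0 : (fw0 a b v)⁻¹ ∉ V) (n1 : (fw1 a b v)⁻¹ ∉ V) (n3 : (fw3 a b v)⁻¹ ∉ V) :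
    ∀ x ∈ BB a b v, x ∈ V := by
  obtain ⟨-, hb, -, -, -, -, -, -, -, hde⟩ := nz a b v hind
  have hid : b * fe3 a b v = - fA0 (fw0 a b v) (fw1 a b v) (fw3 a b v) := by
    simp only [fe3, fe2, fs, fA0, fA1, fA2, fA3, fm, fkap, fw0, fw1, fw3, fc, fq0]
    ring
  have mA0 : fA0 (fw0 a b v) (fw1 a b v) (fw3 a b v) ∈ V := by
    have e : fA0 (fw0 a b v) (fw1 a b v) (fw3 a b v) =
        V.subtype (fA0 (⟨fw0 a b v, h0⟩ : V) ⟨fw1 a b v, h1⟩ ⟨fw3 a b v, h3⟩) := by
      simp only [fA0, map_add, map_sub, map_mul, map_pow, map_ofNat]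
      rfl
    rw [e]
    exact Subtype.prop _
  have mA1 : fA1 (fw0 a b v) (fw1 a b v) (fw3 a b v) ∈ V := by
    have e : fA1 (fw0 a b v) (fw1 a b v) (fw3 a b v) =
        V.subtype (fA1 (⟨fw0 a b v, h0⟩ : V) ⟨fw1 a b v, h1⟩ ⟨fw3 a b v, h3⟩) := by
      simp only [fA1, fm, map_add, map_sub, map_mul, map_pow, map_ofNat, map_neg]
      rfl
    rw [e]
    exact Subtype.prop _
  have mA2 : fA2 (fw0 a b v) (fw1 a b v) (fw3 a b v) ∈ V := by
    have e : fA2 (fw0 a b v) (fw1 a b v) (fw3 a b v) =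
        V.subtype (fA2 (⟨fw0 a b v, h0⟩ : V) ⟨fw1 a b v, h1⟩ ⟨fw3 a b v, h3⟩) := by
      simp only [fA2, fkap, map_add, map_sub, map_mul, map_pow, map_ofNat, map_one]
      rfl
    rw [e]
    exact Subtype.prop _
  have mA3 : fs a b v ∈ V := by
    have e : fs a b v =
        V.subtype (fA3 (⟨fw0 a b v, h0⟩ : V) ⟨fw1 a b v, h1⟩ ⟨fw3 a b v, h3⟩) := by
      simp only [fs, fA3, map_add, map_sub, map_mul, map_pow, map_ofNat, map_one]
      rfl
    rw [e]
    exact Subtype.prop _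
  have hbs : b * fs a b v ∈ V ∧ b * fe2 a b v ∈ V := by
    rcases V.mem_or_inv_mem b with hbV | hbV
    · have m1 : b * fs a b v ∈ V := V.mul_mem _ _ hbV mA3
      exact ⟨m1, V.mul_mem _ _ hbV (V.add_mem _ _ m1 mA2)⟩
    · have e3 : fe3 a b v = b⁻¹ * (- fA0 (fw0 a b v) (fw1 a b v) (fw3 a b v)) := by
        rw [← hid, inv_mul_cancel_left₀ hb]
      have m3 : fe3 a b v ∈ V := by
        rw [e3]
        exact V.mul_mem _ _ hbV (V.neg_mem _ mA0)
      have e4 : b * fe2 a b v = fe3 a b v - fA1 (fw0 a b v) (fw1 a b v) (fw3 a b v) := by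
        simp only [fe3]
        ring
      have m4 : b * fe2 a b v ∈ V := by
        rw [e4]
        exact sub_mem m3 mA1
      have m5 : fe2 a b v ∈ V := by
        have : fe2 a b v = b⁻¹ * (b * fe2 a b v) := by rw [inv_mul_cancel_left₀ hb]
        rw [this]
        exact V.mul_mem _ _ hbV m4
      have e6 : b * fs a b v = fe2 a b v - fA2 (fw0 a b v) (fw1 a b v) (fw3 a b v) := by
        simp only [fe2]
        ring
      refine ⟨?_, m4⟩
      rw [e6]
      exact sub_mem m5 mA2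
  have hdeV : (fde a b v)⁻¹ ∈ V := by
    set W0 : V := ⟨fw0 a b v, h0⟩ with hW0
    set W1 : V := ⟨fw1 a b v, h1⟩ with hW1
    have eW0 : V.subtype W0 = fw0 a b v := rfl
    have eW1 : V.subtype W1 = fw1 a b v := rfl
    have e : fde a b v = V.subtype (fDl W0 W1 * fkap W0 W1) := by
      simp only [fde, fDl, fkap, map_add, map_sub, map_mul, map_pow, map_ofNat, map_one, eW0, eW1]
    rw [e]
    suffices hU : IsUnit (fDl W0 W1 * fkap W0 W1) from by
      have := BB_V_unit V _ hU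
      exact this
    by_contra hnu
    have m0 : W0 ∈ nonunits V := fun hu => n0 (BB_V_unit V W0 hu)
    have m1 : W1 ∈ nonunits V := fun hu => n1 (BB_V_unit V W1 hu)
    have i0 : W0 ∈ IsLocalRing.maximalIdeal V := m0
    have i1 : W1 ∈ IsLocalRing.maximalIdeal V := m1
    have i2 : fDl W0 W1 * fkap W0 W1 ∈ IsLocalRing.maximalIdeal V := hnu
    have e5 : (5 : V) = fDl W0 W1 * fkap W0 W1 -
        (((-8 + 3 * W0 - 24 * W0 ^ 2) * fkap W0 W1 - 20) * W0 +
          ((-3 * W1 ^ 2 - 9 * W0 ^ 2 * W1 ^ 2) * fkap W0 W1 - 45 * W1 ^ 2) * W1) := by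
      simp only [fDl, fkap]
      ring
    have i5 : (5 : V) ∈ IsLocalRing.maximalIdeal V := by
      rw [e5]
      exact Ideal.sub_mem _ i2 (Ideal.add_mem _ (Ideal.mul_mem_left _ _ i0) (Ideal.mul_mem_left _ _ i1))
    have u5 : IsUnit (5 : V) := by
      refine IsUnit.of_mul_eq_one (⟨algebraMap ℂ K 5⁻¹, hV _⟩ : V) ?_
      apply Subtype.ext
      show (5 : K) * algebraMap ℂ K 5⁻¹ = 1
      have : (5 : K) = algebraMap ℂ K 5 := by rw [map_ofNat]
      rw [this, ← map_mul, mul_inv_cancel₀ (by norm_num), map_one]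
    exact i5 u5
  intro x hx
  refine Algebra.adjoin_induction (p := fun x _ => x ∈ V) ?_ ?_ ?_ ?_ hx
  · rintro y hy
    simp only [Set.mem_insert_iff, Set.mem_singleton_iff] at hy
    rcases hy with rfl | rfl | rfl | rfl | rfl | rfl
    · exact h0
    · exact h1
    · exact h3
    · exact hbs.1
    · exact hbs.2
    · exact hdeV
  · intro c
    exact hV c
  · intro y z _ _ hy hz
    exact V.add_mem _ _ hy hz
  · intro y z _ _ hy hz
    exact V.mul_mem _ _ hy hz


end BB_V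

alias BB_V := BB_V.BB_V

end Pool.Agent.Helper447.D71.E
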