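import Pool.Agent.Helper819.ZE.Defs
import Pool.Agent.Helper819.ZE.L_nz

set_option autoImplicit false
set_option linter.unusedVariables false
set_option linter.unusedSectionVars false
set_option linter.dupNamespace false

namespace Pool.Agent.Helper447.D71.E
open Pool.Agent.Helper447.D71
variable {K : Type*} [Field K] [Algebra ℂ K]

namespace ch_le


theorem ch_le (a b v : K) (S : Subalgebra ℂ K) (j : Fin 3) (l : Fin 4)
    (h1 : ∀ i, xs a b i / xs a b j ∈ S) (h2 : ∀ m, ws a b v m / ws a b v l ∈ S) :
    ch a b v j l ≤ S := by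
  unfold ch
  refine Algebra.adjoin_le ?_
  rintro x (⟨i, rfl⟩ | ⟨m, rfl⟩)
  · exact h1 i
  · exact h2 m


end ch_le

alias ch_le := ch_le.ch_le

end Pool.Agent.Helper447.D71.E
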