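import Pool.Agent.Helper819.ZE.Defs
import Pool.Agent.Helper819.ZE.L_nz
import Pool.Agent.Helper819.ZE.L_ch_le
import Pool.Agent.Helper819.ZE.L_ch_gens

set_option autoImplicit false
set_option linter.unusedVariables false
set_option linter.unusedSectionVars false
set_option linter.dupNamespace false

namespace Pool.Agent.Helper447.D71.E
open Pool.Agent.Helper447.D71
variable {K : Type*} [Field K] [Algebra ℂ K]

namespace ch02


theorem ch02 (a b v : K) : (b ∈ ch a b v 0 2 ∧ a ∈ ch a b v 0 2 ∧ fw0 a b v ∈ ch a b v 0 2 ∧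
      fw1 a b v ∈ ch a b v 0 2 ∧ fw3 a b v ∈ ch a b v 0 2) ∧
    ∀ S : Subalgebra ℂ K, b ∈ S → fw0 a b v ∈ S → fw1 a b v ∈ S → fw3 a b v ∈ S →
      ch a b v 0 2 ≤ S := by
  obtain ⟨h1, h2⟩ := ch_gens a b v 0 2
  refine ⟨⟨?_, ?_, ?_, ?_, ?_⟩, ?_⟩
  · have h := h1 1
    have e : xs a b 1 / xs a b 0 = b := by simp [xs]
    rwa [e] at h
  · have h := h1 2
    have e : xs a b 2 / xs a b 0 = a := by simp [xs]
    rwa [e] at h
  · have h := h2 0
    have e : ws a b v 0 / ws a b v 2 = fw0 a b v := by simp [ws]
    rwa [e] at h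
  · have h := h2 1
    have e : ws a b v 1 / ws a b v 2 = fw1 a b v := by simp [ws]
    rwa [e] at h
  · have h := h2 3
    have e : ws a b v 3 / ws a b v 2 = fw3 a b v := by simp [ws]
    rwa [e] at h
  · intro S hb hw0 hw1 hw3
    have ha : a ∈ S := by
      have e : a = -(b * fw1 a b v) - fw0 a b v := by
        unfold fw0
        ring
      rw [e]
      exact S.sub_mem (S.neg_mem (S.mul_mem hb hw1)) hw0
    refine ch_le a b v S 0 2 ?_ ?_
    · intro i
      fin_cases i
      · have e : xs a b 0 / xs a b 0 = 1 := by simp [xs]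
        change xs a b 0 / xs a b 0 ∈ S
        rw [e]
        exact S.one_mem
      · have e : xs a b 1 / xs a b 0 = b := by simp [xs]
        change xs a b 1 / xs a b 0 ∈ S
        rw [e]
        exact hb
      · have e : xs a b 2 / xs a b 0 = a := by simp [xs]
        change xs a b 2 / xs a b 0 ∈ S
        rw [e]
        exact ha
    · intro m
      fin_cases m
      · have e : ws a b v 0 / ws a b v 2 = fw0 a b v := by simp [ws]
        change ws a b v 0 / ws a b v 2 ∈ S
        rw [e]
        exact hw0
      · have e : ws a b v 1 / ws a b v 2 = fw1 a b v := by simp [ws]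
        change ws a b v 1 / ws a b v 2 ∈ S
        rw [e]
        exact hw1
      · have e : ws a b v 2 / ws a b v 2 = 1 := by simp [ws]
        change ws a b v 2 / ws a b v 2 ∈ S
        rw [e]
        exact S.one_mem
      · have e : ws a b v 3 / ws a b v 2 = fw3 a b v := by simp [ws]
        change ws a b v 3 / ws a b v 2 ∈ S
        rw [e]
        exact hw3


end ch02

alias ch02 := ch02.ch02

end Pool.Agent.Helper447.D71.E
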