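import Pool.Agent.Helper819.ZE.Defs
import Pool.Agent.Helper819.ZE.L_nz
import Pool.Agent.Helper819.ZE.L_ch_le
import Pool.Agent.Helper819.ZE.L_ch_gens

set_option autoImplicit false
set_option linter.unusedVariables false
set_option linter.unusedSectionVars false
set_option linter.dupNamespace false

namespace Pool.Agent.Helper447.D71.E
open Pool.Agent.Helper447.D71
variable {K : Type*} [Field K] [Algebra ℂ K]

namespace ch12


theorem ch12 (a b v : K) (hb : b ≠ 0) : (b⁻¹ ∈ ch a b v 1 2 ∧ a / b ∈ ch a b v 1 2 ∧
      fw0 a b v ∈ ch a b v 1 2 ∧ fw1 a b v ∈ ch a b v 1 2 ∧ fw3 a b v ∈ ch a b v 1 2) ∧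
    ∀ S : Subalgebra ℂ K, b⁻¹ ∈ S → fw0 a b v ∈ S → fw1 a b v ∈ S → fw3 a b v ∈ S →
      ch a b v 1 2 ≤ S := by
  constructor
  · obtain ⟨h1, h2⟩ := ch_gens a b v 1 2
    refine ⟨?_, ?_, ?_, ?_, ?_⟩
    · have := h1 0
      simpa [xs, one_div] using this
    · have := h1 2
      simpa [xs] using this
    · have := h2 0
      simpa [ws] using this
    · have := h2 1
      simpa [ws] using this
    · have := h2 3
      simpa [ws] using this
  · intro S h1 h2 h3 h4
    have hab : a / b ∈ S := by
      have : a / b = -(fw1 a b v) - fw0 a b v * b⁻¹ := by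
        unfold fw0
        field_simp
        ring
      rw [this]
      exact S.sub_mem (S.neg_mem h3) (S.mul_mem h2 h1)
    apply ch_le
    · intro i
      fin_cases i
      · simpa [xs, one_div] using h1
      · have : b / b ∈ S := by rw [div_self hb]; exact S.one_mem
        simpa [xs] using this
      · simpa [xs] using hab
    · intro m
      fin_cases m
      · simpa [ws] using h2
      · simpa [ws] using h3
      · simpa [ws] using S.one_mem
      · simpa [ws] using h4

end ch12

alias ch12 := ch12.ch12

end Pool.Agent.Helper447.D71.E
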