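import Pool.Agent.Helper819.ZE.Defs
import Pool.Agent.Helper819.ZE.L_nz

set_option autoImplicit false
set_option linter.unusedVariables false
set_option linter.unusedSectionVars false
set_option linter.dupNamespace false

namespace Pool.Agent.Helper447.D71.E
open Pool.Agent.Helper447.D71
variable {K : Type*} [Field K] [Algebra ℂ K]

namespace Cen_le


theorem Cen_le (A : Subalgebra ℂ K) (R : Subring K) : A ≤ Cen A R := by
  intro x hx
  exact ⟨x, hx, 1, A.one_mem, one_ne_zero, by rw [inv_one]; exact R.one_mem, by rw [mul_one]⟩


end Cen_le

alias Cen_le := Cen_le.Cen_le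

end Pool.Agent.Helper447.D71.E
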