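import Pool.Agent.Helper819.ZE.Defs
import Pool.Agent.Helper819.ZE.L_nz

set_option autoImplicit false
set_option linter.unusedVariables false
set_option linter.unusedSectionVars false
set_option linter.dupNamespace false

namespace Pool.Agent.Helper447.D71.E
open Pool.Agent.Helper447.D71
variable {K : Type*} [Field K] [Algebra ℂ K]

namespace BB_le_gd


theorem BB_le_gd (a b v : K) (i : Fin 4) : BB a b v ≤ gd a b v i := by
  exact Algebra.adjoin_mono Set.subset_union_left


end BB_le_gd

alias BB_le_gd := BB_le_gd.BB_le_gd

end Pool.Agent.Helper447.D71.E
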