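import Pool.Agent.Helper819.ZE.Defs
import Pool.Agent.Helper819.ZE.L_nz

set_option autoImplicit false
set_option linter.unusedVariables false
set_option linter.unusedSectionVars false
set_option linter.dupNamespace false

namespace Pool.Agent.Helper447.D71.E
open Pool.Agent.Helper447.D71
variable {K : Type*} [Field K] [Algebra ℂ K]

namespace ratio_all


theorem ratio_all (a b v : K) (hgen : IsGen a b v) (A : Subalgebra ℂ K)
    (ha : ∃ p ∈ A, ∃ q ∈ A, q ≠ 0 ∧ a * q = p) (hb : ∃ p ∈ A, ∃ q ∈ A, q ≠ 0 ∧ b * q = p)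
    (hv : ∃ p ∈ A, ∃ q ∈ A, q ≠ 0 ∧ v * q = p) (z : K) : ∃ x ∈ A, ∃ s ∈ A, s ≠ 0 ∧ z * s = x := by
  have hle : Algebra.adjoin ℂ ({a, b, v} : Set K) ≤ Cen A ⊤ := by
    rw [Algebra.adjoin_le_iff]
    intro x hx
    rcases hx with rfl | rfl | rfl
    · obtain ⟨p, hp, q, hq, h0, h1⟩ := ha
      exact ⟨p, hp, q, hq, h0, Subring.mem_top _, h1⟩
    · obtain ⟨p, hp, q, hq, h0, h1⟩ := hb
      exact ⟨p, hp, q, hq, h0, Subring.mem_top _, h1⟩
    · obtain ⟨p, hp, q, hq, h0, h1⟩ := hv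
      exact ⟨p, hp, q, hq, h0, Subring.mem_top _, h1⟩
  obtain ⟨f, hf, g, hg, hg0, hz⟩ := hgen z
  obtain ⟨p, hp, q, hq, hq0, -, h1⟩ := hle (show f ∈ Algebra.adjoin ℂ ({a, b, v} : Set K) from hf)
  obtain ⟨p', hp', q', hq', hq0', -, h2⟩ := hle (show g ∈ Algebra.adjoin ℂ ({a, b, v} : Set K) from hg)
  have hp0' : p' ≠ 0 := by
    rw [← h2]
    exact mul_ne_zero hg0 hq0'
  refine ⟨p * q', A.mul_mem hp hq', q * p', A.mul_mem hq hp', mul_ne_zero hq0 hp0', ?_⟩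
  rw [← h1, ← h2, ← hz]
  ring



end ratio_all

alias ratio_all := ratio_all.ratio_all

end Pool.Agent.Helper447.D71.E
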