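import Pool.Agent.Helper819.ZE.Defs
import Pool.Agent.Helper819.ZE.L_nz

set_option autoImplicit false
set_option linter.unusedVariables false
set_option linter.unusedSectionVars false
set_option linter.dupNamespace false

namespace Pool.Agent.Helper447.D71.E
open Pool.Agent.Helper447.D71
variable {K : Type*} [Field K] [Algebra ℂ K]

namespace linalg


theorem la_sum {M : Type*} [AddCommMonoid M] (f : Fin 4 → M) (l a b c : Fin 4) (h1 : a ≠ l)
    (h2 : b ≠ l) (h3 : c ≠ l) (h4 : b ≠ a) (h5 : c ≠ a) (h6 : c ≠ b) :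
    ∑ m, f m = f l + (f a + (f b + f c)) := by
  have hu : (Finset.univ : Finset (Fin 4)) = {l, a, b, c} := by
    revert l a b c
    decide
  rw [hu, Finset.sum_insert, Finset.sum_insert, Finset.sum_insert, Finset.sum_singleton]
  · simp [h6.symm]
  · simp [h4.symm, h5.symm]
  · simp [h1.symm, h2.symm, h3.symm]

theorem la_gen (r1 r2 w : Fin 4 → ℂ) (l : Fin 4) (hw : w l = 1) (h1 : ∑ m, r1 m * w m = 0)
    (h2 : ∑ m, r2 m * w m = 0) (hr : ∃ m n, r1 m * r2 n - r1 n * r2 m ≠ 0) :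
    ∃ m1 m2, m1 ≠ l ∧ m2 ≠ l ∧ r1 m1 * r2 m2 - r1 m2 * r2 m1 ≠ 0 := by
  by_contra hcon
  push Not at hcon
  have hl : ∀ n, r1 l * r2 n - r1 n * r2 l = 0 := by
    intro n
    by_cases hn : n = l
    · subst hn; ring
    have e1 : ∑ m, w m * (r1 m * r2 n - r1 n * r2 m) = 0 := by
      have : ∑ m, w m * (r1 m * r2 n - r1 n * r2 m)
          = (∑ m, r1 m * w m) * r2 n - r1 n * (∑ m, r2 m * w m) := by
        rw [Finset.sum_mul, Finset.mul_sum, ← Finset.sum_sub_distrib]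
        refine Finset.sum_congr rfl fun m _ => ?_
        ring
      rw [this, h1, h2]; ring
    rw [Finset.sum_eq_single l] at e1
    · rwa [hw, one_mul] at e1
    · intro m _ hm
      rw [hcon m n hm hn, mul_zero]
    · intro h; exact absurd (Finset.mem_univ _) h
  obtain ⟨m, n, hmn⟩ := hr
  apply hmn
  by_cases hm : m = l
  · subst hm; exact hl n
  · by_cases hn : n = l
    · subst hn
      have := hl m
      linear_combination -this
    · exact hcon m n hm hn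

theorem linalg (x : Fin 3 → ℂ) (w : Fin 4 → ℂ) (j : Fin 3) (l : Fin 4) (hx : x j = 1)
    (hw : w l = 1)
    (h1 : x 0 * w 0 + x 1 * w 1 + x 2 * w 2 = 0)
    (h2 : (4 * x 1 ^ 2 * x 2 + x 0 * x 1 ^ 2) * w 0
      + (x 0 ^ 3 + 3 * x 2 ^ 3 + x 0 ^ 2 * x 2 + x 1 ^ 3) * w 1
      + (3 * x 0 * x 2 ^ 2 - 4 * x 1 ^ 3 + x 0 ^ 3) * w 3 = 0) :
    ∃ m0 : Fin 4, ∀ (O : Subring K) (I : Submodule O K) (om : Fin 4 → K),
      (∀ c : ℂ, algebraMap ℂ K c ∈ O) → om l = 0 → om m0 ∈ I →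
      algebraMap ℂ K (x 0) * om 0 + algebraMap ℂ K (x 1) * om 1 + algebraMap ℂ K (x 2) * om 2 ∈ I →
      algebraMap ℂ K (4 * x 1 ^ 2 * x 2 + x 0 * x 1 ^ 2) * om 0
      + algebraMap ℂ K (x 0 ^ 3 + 3 * x 2 ^ 3 + x 0 ^ 2 * x 2 + x 1 ^ 3) * om 1
      + algebraMap ℂ K (3 * x 0 * x 2 ^ 2 - 4 * x 1 ^ 3 + x 0 ^ 3) * om 3 ∈ I →
      ∀ m, om m ∈ I := by
  obtain ⟨Q0, hQ0⟩ : ∃ Q0, Q0 = 4 * x 1 ^ 2 * x 2 + x 0 * x 1 ^ 2 := ⟨_, rfl⟩
  obtain ⟨Q1, hQ1⟩ : ∃ Q1, Q1 = x 0 ^ 3 + 3 * x 2 ^ 3 + x 0 ^ 2 * x 2 + x 1 ^ 3 := ⟨_, rfl⟩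
  obtain ⟨C, hC⟩ : ∃ C, C = 3 * x 0 * x 2 ^ 2 - 4 * x 1 ^ 3 + x 0 ^ 3 := ⟨_, rfl⟩
  rw [← hQ0, ← hQ1, ← hC] at h2 ⊢
  obtain ⟨r1, hr1⟩ : ∃ r : Fin 4 → ℂ, r = ![x 0, x 1, x 2, 0] := ⟨_, rfl⟩
  obtain ⟨r2, hr2⟩ : ∃ r : Fin 4 → ℂ, r = ![Q0, Q1, 0, C] := ⟨_, rfl⟩
  have a0 : r1 0 = x 0 := by rw [hr1]; rfl
  have a1 : r1 1 = x 1 := by rw [hr1]; rfl
  have a2 : r1 2 = x 2 := by rw [hr1]; rfl
  have a3 : r1 3 = 0 := by rw [hr1]; rfl
  have b0 : r2 0 = Q0 := by rw [hr2]; rfl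
  have b1 : r2 1 = Q1 := by rw [hr2]; rfl
  have b2 : r2 2 = 0 := by rw [hr2]; rfl
  have b3 : r2 3 = C := by rw [hr2]; rfl
  have hrank : ∃ m n, r1 m * r2 n - r1 n * r2 m ≠ 0 := by
    by_contra hcon
    push Not at hcon
    have m01 := hcon 0 1
    have m03 := hcon 0 3
    have m12 := hcon 1 2
    have m13 := hcon 1 3
    have m23 := hcon 2 3
    rw [a0, a1, b0, b1] at m01
    rw [a0, a3, b0, b3] at m03
    rw [a1, a2, b1, b2] at m12
    rw [a1, a3, b1, b3] at m13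
    rw [a2, a3, b2, b3] at m23
    have hCj : x j * C = 0 := by
      fin_cases j
      · change x 0 * C = 0
        linear_combination m03
      · change x 1 * C = 0
        linear_combination m13
      · change x 2 * C = 0
        linear_combination m23
    rw [hx, one_mul] at hCj
    have hx0 : x 0 = 0 := by
      have h4 : x 0 ^ 4 = 0 := by
        have hC' := hC
        rw [hCj] at hC'
        rw [hQ0, hQ1] at m01
        linear_combination m01 + x 2 * hC'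
      exact pow_eq_zero_iff (by norm_num) |>.1 h4
    have hx1 : x 1 = 0 := by
      have h4 : x 1 ^ 3 = 0 := by
        have hC' := hC
        rw [hCj, hx0] at hC'
        linear_combination (1/4 : ℂ) * hC'
      exact pow_eq_zero_iff (by norm_num) |>.1 h4
    have hx2 : x 2 = 0 := by
      have h4 : x 2 ^ 4 = 0 := by
        rw [hQ1, hx0, hx1] at m12
        linear_combination (-1/3 : ℂ) * m12
      exact pow_eq_zero_iff (by norm_num) |>.1 h4
    have : x j = 0 := by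
      fin_cases j
      · exact hx0
      · exact hx1
      · exact hx2
    rw [hx] at this
    exact one_ne_zero this
  have s1 : ∑ m, r1 m * w m = 0 := by
    rw [Fin.sum_univ_four, a0, a1, a2, a3]
    linear_combination h1
  have s2 : ∑ m, r2 m * w m = 0 := by
    rw [Fin.sum_univ_four, b0, b1, b2, b3]
    linear_combination h2
  obtain ⟨m1, m2, hm1, hm2, hD⟩ := la_gen r1 r2 w l hw s1 s2 hrank
  have hm12 : m2 ≠ m1 := by
    rintro rfl
    exact hD (by ring)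
  have hall : ∀ l m1 m2 : Fin 4, ∃ m0 : Fin 4, m0 ≠ l ∧ m1 ≠ m0 ∧ m2 ≠ m0 := by decide
  obtain ⟨m0, hm0l, hm01, hm02⟩ := hall l m1 m2
  refine ⟨m0, ?_⟩
  intro O I om hO hl hm0 g1 g2
  have hsm : ∀ (c : ℂ) (y : K), y ∈ I → algebraMap ℂ K c * y ∈ I := by
    intro c y hy
    exact I.smul_mem (⟨algebraMap ℂ K c, hO c⟩ : O) hy
  have t1 : ∑ m, algebraMap ℂ K (r1 m) * om m ∈ I := by
    rw [Fin.sum_univ_four, a0, a1, a2, a3, map_zero, zero_mul, add_zero]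
    exact g1
  have t2 : ∑ m, algebraMap ℂ K (r2 m) * om m ∈ I := by
    rw [Fin.sum_univ_four, b0, b1, b2, b3, map_zero, zero_mul, add_zero]
    exact g2
  rw [la_sum _ l m0 m1 m2 hm0l hm1 hm2 hm01 hm02 hm12, hl, mul_zero, zero_add] at t1 t2
  have u1 : algebraMap ℂ K (r1 m1) * om m1 + algebraMap ℂ K (r1 m2) * om m2 ∈ I :=
    (I.add_mem_iff_right (hsm _ _ hm0)).1 t1
  have u2 : algebraMap ℂ K (r2 m1) * om m1 + algebraMap ℂ K (r2 m2) * om m2 ∈ I :=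
    (I.add_mem_iff_right (hsm _ _ hm0)).1 t2
  obtain ⟨D, hDd⟩ : ∃ D, D = r1 m1 * r2 m2 - r1 m2 * r2 m1 := ⟨_, rfl⟩
  rw [← hDd] at hD
  have hDinv : algebraMap ℂ K D⁻¹ * algebraMap ℂ K D = 1 := by
    rw [← map_mul, inv_mul_cancel₀ hD, map_one]
  have v1 : om m1 ∈ I := by
    have e : om m1 = algebraMap ℂ K D⁻¹ * (algebraMap ℂ K (r2 m2) *
        (algebraMap ℂ K (r1 m1) * om m1 + algebraMap ℂ K (r1 m2) * om m2) -
        algebraMap ℂ K (r1 m2) *
        (algebraMap ℂ K (r2 m1) * om m1 + algebraMap ℂ K (r2 m2) * om m2)) := by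
      have e1 : algebraMap ℂ K D = algebraMap ℂ K (r1 m1) * algebraMap ℂ K (r2 m2)
          - algebraMap ℂ K (r1 m2) * algebraMap ℂ K (r2 m1) := by
        rw [hDd, map_sub, map_mul, map_mul]
      calc om m1 = (algebraMap ℂ K D⁻¹ * algebraMap ℂ K D) * om m1 := by rw [hDinv, one_mul]
        _ = _ := by rw [e1]; ring
    rw [e]
    exact hsm _ _ (I.sub_mem (hsm _ _ u1) (hsm _ _ u2))
  have v2 : om m2 ∈ I := by
    have e : om m2 = algebraMap ℂ K D⁻¹ * (algebraMap ℂ K (r1 m1) *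
        (algebraMap ℂ K (r2 m1) * om m1 + algebraMap ℂ K (r2 m2) * om m2) -
        algebraMap ℂ K (r2 m1) *
        (algebraMap ℂ K (r1 m1) * om m1 + algebraMap ℂ K (r1 m2) * om m2)) := by
      have e1 : algebraMap ℂ K D = algebraMap ℂ K (r1 m1) * algebraMap ℂ K (r2 m2)
          - algebraMap ℂ K (r1 m2) * algebraMap ℂ K (r2 m1) := by
        rw [hDd, map_sub, map_mul, map_mul]
      calc om m2 = (algebraMap ℂ K D⁻¹ * algebraMap ℂ K D) * om m2 := by rw [hDinv, one_mul]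
        _ = _ := by rw [e1]; ring
    rw [e]
    exact hsm _ _ (I.sub_mem (hsm _ _ u2) (hsm _ _ u1))
  intro m
  have hm : m = l ∨ m = m0 ∨ m = m1 ∨ m = m2 := by
    clear * - hm0l hm1 hm2 hm01 hm02 hm12
    revert m l m0 m1 m2
    decide
  rcases hm with rfl | rfl | rfl | rfl
  · rw [hl]; exact I.zero_mem
  · exact hm0
  · exact v1
  · exact v2


end linalg

alias linalg := linalg.linalg

end Pool.Agent.Helper447.D71.E
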