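import Pool.Agent.Helper819.ZE.Defs
import Pool.Agent.Helper819.ZE.L_nz
import Pool.Agent.Helper819.ZE.L_gen_max

set_option autoImplicit false
set_option linter.unusedVariables false
set_option linter.unusedSectionVars false
set_option linter.dupNamespace false

namespace Pool.Agent.Helper447.D71.E
open Pool.Agent.Helper447.D71
variable {K : Type*} [Field K] [Algebra ℂ K]

namespace three


theorem three (S : Set K) (O : Subring K) (hO : IsLocAt (Algebra.adjoin ℂ S).toSubring O)
    (x y z : K) (hx : InM O x) (hy : InM O y) (hz : InM O z)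
    (hS : ∀ g ∈ S, ∃ c : ℂ, g - algebraMap ℂ K c ∈ Submodule.span O ({x, y, z} : Set K)) :
    ∃ x y z : K, InM O x ∧ InM O y ∧ InM O z ∧
      ∀ f, InM O f → ∃ p ∈ O, ∃ q ∈ O, ∃ r ∈ O, f = p * x + q * y + r * z := by
  have hL : Loc O := hO.2.1
  have hsmul : ∀ c ∈ O, ∀ f, InM O f → InM O (c * f) := by
    rintro c hc f ⟨hf, hf2⟩
    refine ⟨O.mul_mem hc hf, ?_⟩
    rcases hf2 with h0 | h1
    · left
      rw [h0, mul_zero]
    · by_cases hc0 : c = 0
      · left
        rw [hc0, zero_mul]
      · right
        intro h
        apply h1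
        have : f⁻¹ = c * (c * f)⁻¹ := by
          rw [mul_inv, ← mul_assoc, mul_inv_cancel₀ hc0, one_mul]
        rw [this]
        exact O.mul_mem hc h
  have hadd : ∀ f g, InM O f → InM O g → InM O (f + g) := by
    rintro f g ⟨hf, hf2⟩ ⟨hg, hg2⟩
    refine ⟨O.add_mem hf hg, ?_⟩
    by_cases h0 : f + g = 0
    · left; exact h0
    · right
      intro h
      rcases eq_or_ne f 0 with f0 | f0
      · rw [f0, zero_add] at h h0
        rcases hg2 with h1 | h1
        · exact h0 h1
        · exact h1 h
      rcases eq_or_ne g 0 with g0 | g0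
      · rw [g0, add_zero] at h h0
        rcases hf2 with h1 | h1
        · exact h0 h1
        · exact h1 h
      have hf3 : f⁻¹ ∉ O := by
        rcases hf2 with h1 | h1
        · exact absurd h1 f0
        · exact h1
      have hg3 : g⁻¹ ∉ O := by
        rcases hg2 with h1 | h1
        · exact absurd h1 g0
        · exact h1
      rcases hL (f * (f + g)⁻¹) (O.mul_mem hf h) with h1 | h1
      · apply hf3
        have : f⁻¹ = (f * (f + g)⁻¹)⁻¹ * (f + g)⁻¹ := by
          field_simp
        rw [this]
        exact O.mul_mem h1 h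
      · apply hg3
        have e : 1 - f * (f + g)⁻¹ = g * (f + g)⁻¹ := by
          field_simp
          ring
        rw [e] at h1
        have : g⁻¹ = (g * (f + g)⁻¹)⁻¹ * (f + g)⁻¹ := by
          field_simp
        rw [this]
        exact O.mul_mem h1 h
  refine ⟨x, y, z, hx, hy, hz, fun f hf => ?_⟩
  have hI : ∀ f ∈ Submodule.span O ({x, y, z} : Set K), InM O f := by
    intro f hf
    induction hf using Submodule.span_induction with
    | mem u hu =>
      simp only [Set.mem_insert_iff, Set.mem_singleton_iff] at hu
      rcases hu with rfl | rfl | rfl <;> assumption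
    | zero => exact ⟨O.zero_mem, Or.inl rfl⟩
    | add u v _ _ hu hv => exact hadd u v hu hv
    | smul c u _ hu => exact hsmul c c.2 u hu
  have h := gen_max S O hO (Submodule.span O ({x, y, z} : Set K)) hI hS f hf
  rw [Submodule.mem_span_triple] at h
  obtain ⟨p, q, r, h⟩ := h
  exact ⟨p, p.2, q, q.2, r, r.2, h.symm⟩


end three

alias three := three.three

end Pool.Agent.Helper447.D71.E
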