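import Pool.Agent.Helper819.ZE.Defs
import Pool.Agent.Helper819.ZE.L_nz
import Pool.Agent.Helper819.ZE.L_linalg
import Pool.Agent.Helper819.ZE.L_three
import Pool.Agent.Helper819.ZE.L_ch_gens

set_option autoImplicit false
set_option linter.unusedVariables false
set_option linter.unusedSectionVars false
set_option linter.dupNamespace false

namespace Pool.Agent.Helper447.D71.E
open Pool.Agent.Helper447.D71
variable {K : Type*} [Field K] [Algebra ℂ K]

namespace Zsmooth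



theorem zs_add {O : Subring K} (hL : Loc O) (x y : K) (hx : InM O x) (hy : InM O y) : InM O (x + y) := by
  refine ⟨O.add_mem hx.1 hy.1, ?_⟩
  by_cases h0 : x + y = 0
  · exact Or.inl h0
  right
  intro h
  by_cases hx0 : x = 0
  · subst hx0
    rw [zero_add] at h h0
    rcases hy.2 with h1 | h1
    · exact h0 h1
    · exact h1 h
  by_cases hy0 : y = 0
  · subst hy0
    rw [add_zero] at h h0
    rcases hx.2 with h1 | h1
    · exact h0 h1
    · exact h1 h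
  have hu : x * (x + y)⁻¹ ∈ O := O.mul_mem hx.1 h
  rcases hL _ hu with h1 | h1
  · have h3 : x⁻¹ = (x * (x+y)⁻¹)⁻¹ * (x + y)⁻¹ := by
      rw [mul_inv, inv_inv, mul_assoc, mul_inv_cancel₀ h0, mul_one]
    rcases hx.2 with h2 | h2
    · exact hx0 h2
    · apply h2
      rw [h3]
      exact O.mul_mem h1 h
  · have h4 : 1 - x * (x+y)⁻¹ = y * (x+y)⁻¹ := by
      field_simp
      ring
    have h3 : y⁻¹ = (1 - x * (x+y)⁻¹)⁻¹ * (x + y)⁻¹ := by
      rw [h4, mul_inv, inv_inv, mul_assoc, mul_inv_cancel₀ h0, mul_one]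
    rcases hy.2 with h2 | h2
    · exact hy0 h2
    · apply h2
      rw [h3]
      exact O.mul_mem h1 h

theorem zs_mul {O : Subring K} (c x : K) (hc : c ∈ O) (hx : InM O x) : InM O (c * x) := by
  refine ⟨O.mul_mem hc hx.1, ?_⟩
  by_cases h0 : c * x = 0
  · exact Or.inl h0
  right
  intro h
  have hx0 : x ≠ 0 := fun h1 => h0 (by rw [h1, mul_zero])
  have hc0 : c ≠ 0 := fun h1 => h0 (by rw [h1, zero_mul])
  rcases hx.2 with h2 | h2
  · exact hx0 h2
  · apply h2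
    have : x⁻¹ = c * (c * x)⁻¹ := by field_simp
    rw [this]
    exact O.mul_mem hc h

/-- the maximal ideal as a submodule -/
def zsM (O : Subring K) (hL : Loc O) : Submodule O K where
  carrier := {x | InM O x}
  add_mem' := fun {a b} ha hb => zs_add hL a b ha hb
  zero_mem' := ⟨O.zero_mem, Or.inl rfl⟩
  smul_mem' := fun c x hx => zs_mul c.1 x c.2 hx

theorem zs_const {O : Subring K} (hc : ∀ c : ℂ, algebraMap ℂ K c ∈ O) (c : ℂ)
    (h : InM O (algebraMap ℂ K c)) : c = 0 := by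
  by_contra h0
  rcases h.2 with h1 | h1
  · exact h0 ((map_eq_zero (algebraMap ℂ K)).1 h1)
  · apply h1
    rw [← map_inv₀]
    exact hc _

/-- congruence modulo a submodule -/
def zsC (O : Subring K) (I : Submodule O K) (x y : K) : Prop := x ∈ O ∧ y ∈ O ∧ x - y ∈ I

theorem zs_smul {O : Subring K} (I : Submodule O K) (c x : K) (hc : c ∈ O) (hx : x ∈ I) : c * x ∈ I :=
  I.smul_mem ⟨c, hc⟩ hx

theorem zsC.add {O : Subring K} {I : Submodule O K} {x y x' y' : K} (h : zsC O I x y)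
    (h' : zsC O I x' y') : zsC O I (x + x') (y + y') :=
  ⟨O.add_mem h.1 h'.1, O.add_mem h.2.1 h'.2.1, by
    have := I.add_mem h.2.2 h'.2.2
    convert this using 1
    ring⟩

theorem zsC.sub {O : Subring K} {I : Submodule O K} {x y x' y' : K} (h : zsC O I x y)
    (h' : zsC O I x' y') : zsC O I (x - x') (y - y') :=
  ⟨O.sub_mem h.1 h'.1, O.sub_mem h.2.1 h'.2.1, by
    have := I.sub_mem h.2.2 h'.2.2
    convert this using 1
    ring⟩

theorem zsC.mul {O : Subring K} {I : Submodule O K} {x y x' y' : K} (h : zsC O I x y)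
    (h' : zsC O I x' y') : zsC O I (x * x') (y * y') :=
  ⟨O.mul_mem h.1 h'.1, O.mul_mem h.2.1 h'.2.1, by
    have := I.add_mem (zs_smul I _ _ h.1 h'.2.2) (zs_smul I _ _ h'.2.1 h.2.2)
    convert this using 1
    ring⟩

theorem zsC.const {O : Subring K} {I : Submodule O K} {x : K} (h : x ∈ O) : zsC O I x x :=
  ⟨h, h, by rw [sub_self]; exact I.zero_mem⟩

theorem zsC.pow {O : Subring K} {I : Submodule O K} {x y : K} (h : zsC O I x y) (n : ℕ) :
    zsC O I (x ^ n) (y ^ n) := by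
  induction n with
  | zero => rw [pow_zero, pow_zero]; exact zsC.const O.one_mem
  | succ n ih => rw [pow_succ, pow_succ]; exact ih.mul h

theorem zs_red {O : Subring K} (I : Submodule O K) (hc : ∀ c : ℂ, algebraMap ℂ K c ∈ O)
    (X : Fin 3 → K) (W : Fin 4 → K) (hXO : ∀ i, X i ∈ O) (hWO : ∀ i, W i ∈ O) (xb : Fin 3 → ℂ)
    (hX : ∀ i, X i - algebraMap ℂ K (xb i) ∈ I)
    (r1 : X 0 * W 0 + X 1 * W 1 + X 2 * W 2 = 0)
    (r2 : (4 * X 1 ^ 2 * X 2 + X 0 * X 1 ^ 2) * W 0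
      + (X 0 ^ 3 + 3 * X 2 ^ 3 + X 0 ^ 2 * X 2 + X 1 ^ 3) * W 1
      + (3 * X 0 * X 2 ^ 2 - 4 * X 1 ^ 3 + X 0 ^ 3) * W 3 = 0) :
    algebraMap ℂ K (xb 0) * W 0 + algebraMap ℂ K (xb 1) * W 1 + algebraMap ℂ K (xb 2) * W 2 ∈ I ∧
    algebraMap ℂ K (4 * xb 1 ^ 2 * xb 2 + xb 0 * xb 1 ^ 2) * W 0
      + algebraMap ℂ K (xb 0 ^ 3 + 3 * xb 2 ^ 3 + xb 0 ^ 2 * xb 2 + xb 1 ^ 3) * W 1
      + algebraMap ℂ K (3 * xb 0 * xb 2 ^ 2 - 4 * xb 1 ^ 3 + xb 0 ^ 3) * W 3 ∈ I := by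
  have hC : ∀ i, zsC O I (X i) (algebraMap ℂ K (xb i)) := fun i => ⟨hXO i, hc _, hX i⟩
  have h3 : (3 : K) ∈ O := by exact_mod_cast natCast_mem O 3
  have h4 : (4 : K) ∈ O := by exact_mod_cast natCast_mem O 4
  have c3 : zsC O I (3 : K) 3 := zsC.const h3
  have c4 : zsC O I (4 : K) 4 := zsC.const h4
  constructor
  · have := I.add_mem (I.add_mem (zs_smul I _ _ (hWO 0) (hX 0)) (zs_smul I _ _ (hWO 1) (hX 1)))
      (zs_smul I _ _ (hWO 2) (hX 2))
    have := I.neg_mem this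
    convert this using 1
    linear_combination r1
  · have q0 := ((c4.mul ((hC 1).pow 2)).mul (hC 2)).add ((hC 0).mul ((hC 1).pow 2))
    have q1 := ((((hC 0).pow 3).add (c3.mul ((hC 2).pow 3))).add (((hC 0).pow 2).mul (hC 2))).add ((hC 1).pow 3)
    have q3 := (((c3.mul (hC 0)).mul ((hC 2).pow 2)).sub (c4.mul ((hC 1).pow 3))).add ((hC 0).pow 3)
    have := I.add_mem (I.add_mem (zs_smul I _ _ (hWO 0) q0.2.2) (zs_smul I _ _ (hWO 1) q1.2.2))
      (zs_smul I _ _ (hWO 3) q3.2.2)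
    have := I.neg_mem this
    convert this using 1
    simp only [map_add, map_sub, map_mul, map_pow, map_ofNat]
    linear_combination r2

theorem Zsmooth (a b v : K) (hind : AlgebraicIndependent ℂ ![a, b, v]) (j : Fin 3) (l : Fin 4)
    (O : Subring K) (hO : IsLocAt (ch a b v j l).toSubring O)
    (hcl : ∀ z ∈ O, ∃ c : ℂ, InM O (z - algebraMap ℂ K c)) :
    ∃ x y z : K, InM O x ∧ InM O y ∧ InM O z ∧
      ∀ f, InM O f → ∃ p ∈ O, ∃ q ∈ O, ∃ r ∈ O, f = p * x + q * y + r * z := by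
  obtain ⟨ha, hb, hv, hfc, hw0, hw1, hw3, hs, ht, hde⟩ := nz a b v hind
  have hL : Loc O := hO.2.1
  obtain ⟨X, hXd⟩ : ∃ X : Fin 3 → K, X = fun i => xs a b i / xs a b j := ⟨_, rfl⟩
  obtain ⟨W, hWd⟩ : ∃ W : Fin 4 → K, W = fun m => ws a b v m / ws a b v l := ⟨_, rfl⟩
  have hXO : ∀ i, X i ∈ O := fun i => by
    rw [hXd]; exact hO.1 ((ch_gens a b v j l).1 i)
  have hWO : ∀ m, W m ∈ O := fun m => by
    rw [hWd]; exact hO.1 ((ch_gens a b v j l).2 m)
  have hcO : ∀ c : ℂ, algebraMap ℂ K c ∈ O := fun c => hO.1 ((ch a b v j l).algebraMap_mem c)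
  have hxj : xs a b j ≠ 0 := by
    fin_cases j
    · exact one_ne_zero
    · exact hb
    · exact ha
  have hwl : ws a b v l ≠ 0 := by
    fin_cases l
    · exact hw0
    · exact hw1
    · exact one_ne_zero
    · exact hw3
  have hXj : X j = 1 := by rw [hXd]; exact div_self hxj
  have hWl : W l = 1 := by rw [hWd]; exact div_self hwl
  choose cx hcx using fun i => hcl (X i) (hXO i)
  choose cw hcw using fun m => hcl (W m) (hWO m)
  obtain ⟨xb, hxb⟩ : ∃ xb : Fin 3 → ℂ, xb = fun i => if i = j then 1 else cx i := ⟨_, rfl⟩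
  obtain ⟨wb, hwb⟩ : ∃ wb : Fin 4 → ℂ, wb = fun m => if m = l then 1 else cw m := ⟨_, rfl⟩
  have hxbj : xb j = 1 := by rw [hxb]; simp
  have hwbl : wb l = 1 := by rw [hwb]; simp
  have hXm : ∀ i, InM O (X i - algebraMap ℂ K (xb i)) := by
    intro i
    by_cases h : i = j
    · rw [h, hXj, hxbj, map_one, sub_self]
      exact ⟨O.zero_mem, Or.inl rfl⟩
    · have : xb i = cx i := by rw [hxb]; simp [h]
      rw [this]
      exact hcx i
  have hWm : ∀ i, InM O (W i - algebraMap ℂ K (wb i)) := by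
    intro i
    by_cases h : i = l
    · rw [h, hWl, hwbl, map_one, sub_self]
      exact ⟨O.zero_mem, Or.inl rfl⟩
    · have : wb i = cw i := by rw [hwb]; simp [h]
      rw [this]
      exact hcw i
  have r1 : X 0 * W 0 + X 1 * W 1 + X 2 * W 2 = 0 := by
    rw [hXd, hWd]
    have e : xs a b 0 * ws a b v 0 + xs a b 1 * ws a b v 1 + xs a b 2 * ws a b v 2 = 0 := by
      show 1 * fw0 a b v + b * fw1 a b v + a * 1 = 0
      unfold fw0
      ring
    show xs a b 0 / xs a b j * (ws a b v 0 / ws a b v l) + xs a b 1 / xs a b j * (ws a b v 1 / ws a b v l) +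
      xs a b 2 / xs a b j * (ws a b v 2 / ws a b v l) = 0
    have : xs a b 0 / xs a b j * (ws a b v 0 / ws a b v l) + xs a b 1 / xs a b j * (ws a b v 1 / ws a b v l) +
      xs a b 2 / xs a b j * (ws a b v 2 / ws a b v l) = 
      (xs a b 0 * ws a b v 0 + xs a b 1 * ws a b v 1 + xs a b 2 * ws a b v 2) / (xs a b j * ws a b v l) := by
      field_simp
    rw [this, e, zero_div]
  have r2 : (4 * X 1 ^ 2 * X 2 + X 0 * X 1 ^ 2) * W 0
      + (X 0 ^ 3 + 3 * X 2 ^ 3 + X 0 ^ 2 * X 2 + X 1 ^ 3) * W 1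
      + (3 * X 0 * X 2 ^ 2 - 4 * X 1 ^ 3 + X 0 ^ 3) * W 3 = 0 := by
    rw [hXd, hWd]
    have e : (4 * xs a b 1 ^ 2 * xs a b 2 + xs a b 0 * xs a b 1 ^ 2) * ws a b v 0
      + (xs a b 0 ^ 3 + 3 * xs a b 2 ^ 3 + xs a b 0 ^ 2 * xs a b 2 + xs a b 1 ^ 3) * ws a b v 1
      + (3 * xs a b 0 * xs a b 2 ^ 2 - 4 * xs a b 1 ^ 3 + xs a b 0 ^ 3) * ws a b v 3 = 0 := by
      show (4 * b ^ 2 * a + 1 * b ^ 2) * fw0 a b v
        + (1 ^ 3 + 3 * a ^ 3 + 1 ^ 2 * a + b ^ 3) * fw1 a b v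
        + (3 * 1 * a ^ 2 - 4 * b ^ 3 + 1 ^ 3) * fw3 a b v = 0
      unfold fw0 fw3 fw1 fc fq0
      ring
    show (4 * (xs a b 1 / xs a b j) ^ 2 * (xs a b 2 / xs a b j) + (xs a b 0 / xs a b j) * (xs a b 1 / xs a b j) ^ 2) * (ws a b v 0 / ws a b v l)
      + ((xs a b 0 / xs a b j) ^ 3 + 3 * (xs a b 2 / xs a b j) ^ 3 + (xs a b 0 / xs a b j) ^ 2 * (xs a b 2 / xs a b j) + (xs a b 1 / xs a b j) ^ 3) * (ws a b v 1 / ws a b v l)
      + (3 * (xs a b 0 / xs a b j) * (xs a b 2 / xs a b j) ^ 2 - 4 * (xs a b 1 / xs a b j) ^ 3 + (xs a b 0 / xs a b j) ^ 3) * (ws a b v 3 / ws a b v l) = 0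
    have : (4 * (xs a b 1 / xs a b j) ^ 2 * (xs a b 2 / xs a b j) + (xs a b 0 / xs a b j) * (xs a b 1 / xs a b j) ^ 2) * (ws a b v 0 / ws a b v l)
      + ((xs a b 0 / xs a b j) ^ 3 + 3 * (xs a b 2 / xs a b j) ^ 3 + (xs a b 0 / xs a b j) ^ 2 * (xs a b 2 / xs a b j) + (xs a b 1 / xs a b j) ^ 3) * (ws a b v 1 / ws a b v l)
      + (3 * (xs a b 0 / xs a b j) * (xs a b 2 / xs a b j) ^ 2 - 4 * (xs a b 1 / xs a b j) ^ 3 + (xs a b 0 / xs a b j) ^ 3) * (ws a b v 3 / ws a b v l) =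
      ((4 * xs a b 1 ^ 2 * xs a b 2 + xs a b 0 * xs a b 1 ^ 2) * ws a b v 0
      + (xs a b 0 ^ 3 + 3 * xs a b 2 ^ 3 + xs a b 0 ^ 2 * xs a b 2 + xs a b 1 ^ 3) * ws a b v 1
      + (3 * xs a b 0 * xs a b 2 ^ 2 - 4 * xs a b 1 ^ 3 + xs a b 0 ^ 3) * ws a b v 3) / (xs a b j ^ 3 * ws a b v l) := by
      field_simp
    rw [this, e, zero_div]
  obtain ⟨m1, m2⟩ := zs_red (zsM O hL) hcO X W hXO hWO xb hXm r1 r2
  have h1 : xb 0 * wb 0 + xb 1 * wb 1 + xb 2 * wb 2 = 0 := by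
    apply zs_const hcO
    show _ ∈ zsM O hL
    have hw : ∀ i, W i - algebraMap ℂ K (wb i) ∈ zsM O hL := hWm
    have := (zsM O hL).sub_mem m1 ((zsM O hL).add_mem ((zsM O hL).add_mem 
      (zs_smul _ _ _ (hcO (xb 0)) (hw 0)) (zs_smul _ _ _ (hcO (xb 1)) (hw 1))) (zs_smul _ _ _ (hcO (xb 2)) (hw 2)))
    convert this using 1
    simp only [map_add, map_mul]
    ring
  have h2 : (4 * xb 1 ^ 2 * xb 2 + xb 0 * xb 1 ^ 2) * wb 0
      + (xb 0 ^ 3 + 3 * xb 2 ^ 3 + xb 0 ^ 2 * xb 2 + xb 1 ^ 3) * wb 1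
      + (3 * xb 0 * xb 2 ^ 2 - 4 * xb 1 ^ 3 + xb 0 ^ 3) * wb 3 = 0 := by
    apply zs_const hcO
    show _ ∈ zsM O hL
    have hw : ∀ i, W i - algebraMap ℂ K (wb i) ∈ zsM O hL := hWm
    have := (zsM O hL).sub_mem m2 ((zsM O hL).add_mem ((zsM O hL).add_mem 
      (zs_smul _ _ _ (hcO (4 * xb 1 ^ 2 * xb 2 + xb 0 * xb 1 ^ 2)) (hw 0)) 
      (zs_smul _ _ _ (hcO (xb 0 ^ 3 + 3 * xb 2 ^ 3 + xb 0 ^ 2 * xb 2 + xb 1 ^ 3)) (hw 1))) 
      (zs_smul _ _ _ (hcO (3 * xb 0 * xb 2 ^ 2 - 4 * xb 1 ^ 3 + xb 0 ^ 3)) (hw 3)))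
    convert this using 1
    rw [map_add, map_add, map_mul, map_mul, map_mul]
    ring
  obtain ⟨m0, hm0⟩ := linalg (K := K) xb wb j l hxbj hwbl h1 h2
  obtain ⟨om, hom⟩ : ∃ om : Fin 4 → K, om = fun m => W m - algebraMap ℂ K (wb m) := ⟨_, rfl⟩
  obtain ⟨xi, hxi⟩ : ∃ xi : Fin 3 → K, xi = fun m => X m - algebraMap ℂ K (xb m) := ⟨_, rfl⟩
  have hxim : ∀ i, xi i ∈ Submodule.span O ({xi (j + 1), xi (j + 2), om m0} : Set K) := by
    intro i
    have hi : i = j ∨ i = j + 1 ∨ i = j + 2 := by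
      clear * -
      revert i j
      decide
    rcases hi with rfl | rfl | rfl
    · have : xi i = 0 := by rw [hxi]; simp [hXj, hxbj]
      rw [this]
      exact Submodule.zero_mem _
    · exact Submodule.subset_span (by simp)
    · exact Submodule.subset_span (by simp)
  obtain ⟨n1, n2⟩ := zs_red (Submodule.span O ({xi (j + 1), xi (j + 2), om m0} : Set K)) hcO X W hXO hWO xb
    (fun i => by have := hxim i; rw [hxi] at this ⊢; exact this) r1 r2
  have homm : ∀ m, om m ∈ Submodule.span O ({xi (j + 1), xi (j + 2), om m0} : Set K) := by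
    apply hm0 O _ om hcO
    · rw [hom]; simp [hWl, hwbl]
    · exact Submodule.subset_span (by simp)
    · convert n1 using 1
      rw [hom]
      have h1' : algebraMap ℂ K (xb 0) * algebraMap ℂ K (wb 0) + algebraMap ℂ K (xb 1) * algebraMap ℂ K (wb 1) +
          algebraMap ℂ K (xb 2) * algebraMap ℂ K (wb 2) = 0 := by
        rw [← map_mul, ← map_mul, ← map_mul, ← map_add, ← map_add, h1, map_zero]
      linear_combination -h1'
    · convert n2 using 1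
      rw [hom]
      have h2' : algebraMap ℂ K (4 * xb 1 ^ 2 * xb 2 + xb 0 * xb 1 ^ 2) * algebraMap ℂ K (wb 0)
      + algebraMap ℂ K (xb 0 ^ 3 + 3 * xb 2 ^ 3 + xb 0 ^ 2 * xb 2 + xb 1 ^ 3) * algebraMap ℂ K (wb 1)
      + algebraMap ℂ K (3 * xb 0 * xb 2 ^ 2 - 4 * xb 1 ^ 3 + xb 0 ^ 3) * algebraMap ℂ K (wb 3) = 0 := by
        rw [← map_mul, ← map_mul, ← map_mul, ← map_add, ← map_add, h2, map_zero]
      linear_combination -h2'
  refine three (Set.range (fun i => xs a b i / xs a b j) ∪ Set.range (fun m => ws a b v m / ws a b v l)) O hO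
    (xi (j + 1)) (xi (j + 2)) (om m0) ?_ ?_ ?_ ?_
  · rw [hxi]; exact hXm _
  · rw [hxi]; exact hXm _
  · rw [hom]; exact hWm _
  · intro g hg
    rcases hg with ⟨i, rfl⟩ | ⟨m, rfl⟩
    · refine ⟨xb i, ?_⟩
      have e : xs a b i / xs a b j - algebraMap ℂ K (xb i) = xi i := by rw [hxi, hXd]
      show xs a b i / xs a b j - algebraMap ℂ K (xb i) ∈ _
      rw [e]
      exact hxim i
    · refine ⟨wb m, ?_⟩
      have e : ws a b v m / ws a b v l - algebraMap ℂ K (wb m) = om m := by rw [hom, hWd]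
      show ws a b v m / ws a b v l - algebraMap ℂ K (wb m) ∈ _
      rw [e]
      exact homm m



end Zsmooth

alias Zsmooth := Zsmooth.Zsmooth

end Pool.Agent.Helper447.D71.E
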