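import Pool.Agent.Helper819.ZE.L_Cen_inv
import Pool.Agent.Helper819.ZE.L_Cen_sub

set_option autoImplicit false
set_option linter.unusedVariables false
set_option linter.unusedSectionVars false
set_option linter.dupNamespace false

namespace Pool.Agent.Helper447.D71.E
open Pool.Agent.Helper447.D71
variable {K : Type*} [Field K] [Algebra ℂ K]

theorem isLoc_of_Eqv {A B : Subalgebra ℂ K} {O : Subring K} (h : Eqv A B O)
    (hO : IsLocAt A.toSubring O) : IsLocAt B.toSubring O := by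
  refine ⟨fun x hx => h.2.1 x hx, hO.2.1, ?_⟩
  intro z hz
  obtain ⟨x, hx, s, hs, h0, h1, h2⟩ := hO.2.2 z hz
  obtain ⟨p, hp, q, hq, hq0, hq1, hpq⟩ := h.2.2.1 hs
  obtain ⟨p', hp', q', hq', hq0', hq1', hpq'⟩ := h.2.2.1 hx
  have hp0 : p ≠ 0 := by rw [← hpq]; exact mul_ne_zero h0 hq0
  refine ⟨p' * q, B.mul_mem hp' hq, p * q', B.mul_mem hp hq', mul_ne_zero hp0 hq0', ?_, ?_⟩
  · rw [mul_inv, ← hpq, mul_inv]
    exact O.mul_mem (O.mul_mem h1 hq1) hq1'
  · rw [← hpq, ← hpq', ← h2]; ring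


end Pool.Agent.Helper447.D71.E
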