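import Pool.Agent.Helper819.ZE.Defs
import Pool.Agent.Helper819.ZE.L_nz
import Pool.Agent.Helper819.ZE.L_BB_mem

set_option autoImplicit false
set_option linter.unusedVariables false
set_option linter.unusedSectionVars false
set_option linter.dupNamespace false

namespace Pool.Agent.Helper447.D71.E
open Pool.Agent.Helper447.D71
variable {K : Type*} [Field K] [Algebra ℂ K]

namespace gd_le


theorem gd_le (a b v : K) (S : Subalgebra ℂ K) (hB : BB a b v ≤ S) :
    ((ft a b v / fs a b v ∈ S → b * ft a b v / fs a b v ∈ S → fs a b v ^ 2 / ft a b v ∈ S →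
      gd a b v 0 ≤ S)) ∧
    (ft a b v / fs a b v ^ 2 ∈ S → gd a b v 1 ≤ S) ∧
    (b⁻¹ ∈ S → fs a b v / (b * ft a b v) ∈ S → gd a b v 2 ≤ S) ∧
    (b ∈ S → fs a b v / ft a b v ∈ S → gd a b v 3 ≤ S) := by
  have hbase : ({fw0 a b v, fw1 a b v, fw3 a b v, b * fs a b v, b * fe2 a b v,
    (fde a b v)⁻¹} : Set K) ⊆ (S : Set K) := fun x hx => hB (Algebra.subset_adjoin hx)
  have key : ∀ T : Set K, T ⊆ (S : Set K) → Algebra.adjoin ℂ (({fw0 a b v, fw1 a b v, fw3 a b v,
      b * fs a b v, b * fe2 a b v, (fde a b v)⁻¹} : Set K) ∪ T) ≤ S :=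
    fun T hT => Algebra.adjoin_le (Set.union_subset hbase hT)
  refine ⟨fun h1 h2 h3 => key _ ?_, fun h1 => key _ ?_, fun h1 h2 => key _ ?_,
    fun h1 h2 => key _ ?_⟩
  · rintro x (rfl | rfl | rfl)
    · exact h1
    · exact h2
    · exact h3
  · rintro x rfl
    exact h1
  · rintro x (rfl | rfl)
    · exact h1
    · exact h2
  · rintro x (rfl | rfl)
    · exact h1
    · exact h2


end gd_le

alias gd_le := gd_le.gd_le

end Pool.Agent.Helper447.D71.E
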