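import Pool.Agent.Helper819.ZE.Defs
import Pool.Agent.Helper819.ZE.L_nz
import Pool.Agent.Helper819.ZE.L_Cen_inv
import Pool.Agent.Helper819.ZE.L_Cen_le
import Pool.Agent.Helper819.ZE.L_BB_mem
import Pool.Agent.Helper819.ZE.L_BB_le_gd
import Pool.Agent.Helper819.ZE.L_gd_gens
import Pool.Agent.Helper819.ZE.L_gd_le
import Pool.Agent.Helper819.ZE.L_ch02
import Pool.Agent.Helper819.ZE.L_ch12
import Pool.Agent.Helper819.ZE.L_BB_ch02
import Pool.Agent.Helper819.ZE.L_BB_ch12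
import Pool.Agent.Helper819.ZE.L_Cen_sub

set_option autoImplicit false
set_option linter.unusedVariables false
set_option linter.unusedSectionVars false
set_option linter.dupNamespace false

namespace Pool.Agent.Helper447.D71.E
open Pool.Agent.Helper447.D71
variable {K : Type*} [Field K] [Algebra ℂ K]

namespace off2


theorem off2 (a b v : K) (hind : AlgebraicIndependent ℂ ![a, b, v]) (R : Subring K)
    (hG : ∀ x ∈ gd a b v 2, x ∈ R)
    (hu : (fs a b v)⁻¹ ∈ R ∨ (b * fs a b v)⁻¹ ∈ R ∨ (ft a b v)⁻¹ ∈ R ∨ (b ^ 2 * ft a b v)⁻¹ ∈ R) :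
    Eqv (gd a b v 2) (ch a b v 0 2) R ∨ Eqv (gd a b v 2) (ch a b v 1 2) R := by
  obtain ⟨ha, hb, hv, hfc, hw0, hw1, hw3, hs, ht, hde⟩ := nz a b v hind
  obtain ⟨-, -, ⟨hg1, hg2⟩, -⟩ := gd_gens a b v
  obtain ⟨m0, m1, m3, mbs, mbe, mdi, ms, me2, me3, mt, mbt, mb2t, mde⟩ := BB_mem a b v
  have hBB := BB_le_gd a b v 2
  have hbR : b⁻¹ ∈ R := hG _ hg1
  have hmR : fs a b v / (b * ft a b v) ∈ R := hG _ hg2
  have hdR : (fde a b v)⁻¹ ∈ R := hG _ (hBB mdi)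
  have hsub : ch a b v 1 2 ≤ gd a b v 2 := (ch12 a b v hb).2 _ hg1 (hBB m0) (hBB m1) (hBB m3)
  obtain ⟨hBC, c1, c2, c3, c4⟩ := BB_ch12 a b v hb R hde hdR
  have hbs : (b * fs a b v)⁻¹ ∈ R → (b ^ 2 * ft a b v)⁻¹ ∈ R := by
    intro h
    have e : (b ^ 2 * ft a b v)⁻¹ = (fs a b v / (b * ft a b v)) * (b * fs a b v)⁻¹ := by
      field_simp
    rw [e]; exact R.mul_mem hmR h
  have hb2t : (b ^ 2 * ft a b v)⁻¹ ∈ R := by
    rcases hu with h | h | h | h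
    · refine hbs ?_
      rw [mul_inv]; exact R.mul_mem hbR h
    · exact hbs h
    · rw [mul_inv, ← inv_pow]
      exact R.mul_mem (R.pow_mem hbR 2) h
    · exact h
  have hle := Cen_le (ch a b v 1 2) R
  have hCinv : (b ^ 2 * ft a b v)⁻¹ ∈ Cen (ch a b v 1 2) R :=
    Cen_inv _ R (hle c3) (mul_ne_zero (pow_ne_zero 2 hb) ht) hb2t
  right
  refine ⟨hG, fun x hx => hG x (hsub hx), ?_, hsub.trans (Cen_le _ R)⟩
  refine (gd_le a b v _ hBC).2.2.1 (hle (ch12 a b v hb).1.1) ?_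
  have e : fs a b v / (b * ft a b v) = (b * fs a b v) * (b ^ 2 * ft a b v)⁻¹ := by
    field_simp
  rw [e]
  exact (Cen (ch a b v 1 2) R).mul_mem (hle c2) hCinv


end off2

alias off2 := off2.off2

end Pool.Agent.Helper447.D71.E
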