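import Pool.Agent.Helper819.ZE.Defs
import Pool.Agent.Helper819.ZE.L_nz
import Pool.Agent.Helper819.ZE.L_Cen_inv
import Pool.Agent.Helper819.ZE.L_Cen_le
import Pool.Agent.Helper819.ZE.L_BB_mem
import Pool.Agent.Helper819.ZE.L_BB_le_gd
import Pool.Agent.Helper819.ZE.L_gd_gens
import Pool.Agent.Helper819.ZE.L_gd_le
import Pool.Agent.Helper819.ZE.L_ch02
import Pool.Agent.Helper819.ZE.L_ch12
import Pool.Agent.Helper819.ZE.L_BB_ch02
import Pool.Agent.Helper819.ZE.L_BB_ch12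
import Pool.Agent.Helper819.ZE.L_Cen_sub

set_option autoImplicit false
set_option linter.unusedVariables false
set_option linter.unusedSectionVars false
set_option linter.dupNamespace false

namespace Pool.Agent.Helper447.D71.E
open Pool.Agent.Helper447.D71
variable {K : Type*} [Field K] [Algebra ℂ K]

namespace off3


theorem off3 (a b v : K) (hind : AlgebraicIndependent ℂ ![a, b, v]) (R : Subring K)
    (hG : ∀ x ∈ gd a b v 3, x ∈ R)
    (hu : (fs a b v)⁻¹ ∈ R ∨ (b * fs a b v)⁻¹ ∈ R ∨ (ft a b v)⁻¹ ∈ R ∨ (b ^ 2 * ft a b v)⁻¹ ∈ R) :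
    Eqv (gd a b v 3) (ch a b v 0 2) R ∨ Eqv (gd a b v 3) (ch a b v 1 2) R := by
  left
  obtain ⟨ha0, hb0, hv0, hfc0, hw00, hw10, hw30, hfs0, hft0, hfde0⟩ := nz a b v hind
  obtain ⟨hB0, hB1, hB3, hBbs, hBbe, hBd, hBs, hBe2, hBe3, hBt, hBbt, hBbbt, hBde⟩ := BB_mem a b v
  have hBG := BB_le_gd a b v 3
  obtain ⟨-, -, -, hbG, hmG⟩ := gd_gens a b v
  have hchG : ch a b v 0 2 ≤ gd a b v 3 :=
    (ch02 a b v).2 _ hbG (hBG hB0) (hBG hB1) (hBG hB3)
  have hbR : b ∈ R := hG _ hbG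
  have hmR : fs a b v / ft a b v ∈ R := hG _ hmG
  have hdR : (fde a b v)⁻¹ ∈ R := hG _ (hBG hBd)
  have htR : (ft a b v)⁻¹ ∈ R := by
    rcases hu with h | h | h | h
    · have : (ft a b v)⁻¹ = fs a b v / ft a b v * (fs a b v)⁻¹ := by
        field_simp
      rw [this]
      exact R.mul_mem hmR h
    · have : (ft a b v)⁻¹ = b * (fs a b v / ft a b v) * (b * fs a b v)⁻¹ := by
        field_simp
      rw [this]
      exact R.mul_mem (R.mul_mem hbR hmR) h
    · exact h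
    · have : (ft a b v)⁻¹ = b ^ 2 * (b ^ 2 * ft a b v)⁻¹ := by
        field_simp
      rw [this]
      exact R.mul_mem (R.pow_mem hbR 2) h
  obtain ⟨hBC, hsC, htC, hdC⟩ := BB_ch02 a b v R hfde0 hdR
  have hbC : b ∈ Cen (ch a b v 0 2) R := Cen_le _ _ (ch02 a b v).1.1
  have hmC : fs a b v / ft a b v ∈ Cen (ch a b v 0 2) R :=
    ⟨fs a b v, hsC, ft a b v, htC, hft0, htR, by field_simp⟩
  refine ⟨hG, fun x hx => hG x (hchG hx), (gd_le a b v _ hBC).2.2.2 hbC hmC,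
    le_trans hchG (Cen_le _ _)⟩


end off3

alias off3 := off3.off3

end Pool.Agent.Helper447.D71.E
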