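import Pool.Agent.Helper819.ZE.Defs
import Pool.Agent.Helper819.ZE.L_nz
import Pool.Agent.Helper819.ZE.L_three
import Pool.Agent.Helper819.ZE.L_BB_mem
import Pool.Agent.Helper819.ZE.L_BB_le_gd
import Pool.Agent.Helper819.ZE.L_gd_gens
import Pool.Agent.Helper819.ZE.L_idealC

set_option autoImplicit false
set_option linter.unusedVariables false
set_option linter.unusedSectionVars false
set_option linter.dupNamespace false

namespace Pool.Agent.Helper447.D71.E
open Pool.Agent.Helper447.D71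
variable {K : Type*} [Field K] [Algebra ℂ K]

namespace over0


theorem aux_smul (O : Subring K) (I : Submodule O K) (c m : K) (hc : c ∈ O) (hm : m ∈ I) :
    c * m ∈ I := I.smul_mem ⟨c, hc⟩ hm

theorem aux_de (a b v : K) (hde : fde a b v ≠ 0) (O : Subring K) (hC : ∀ c : ℂ, algebraMap ℂ K c ∈ O)
    (h0 : fw0 a b v ∈ O) (h1 : fw1 a b v ∈ O) (hd : (fde a b v)⁻¹ ∈ O) (I : Submodule O K)
    (i0 : fw0 a b v ∈ I) (i1 : fw1 a b v ∈ I) :
    (fde a b v)⁻¹ - algebraMap ℂ K (1 / 5) ∈ I := by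
  have hchar : CharZero K := charZero_of_injective_algebraMap (algebraMap ℂ K).injective
  have h5 : (algebraMap ℂ K (1 / 5)) = 1 / 5 := by
    rw [map_div₀, map_one, map_ofNat]
  have h5' : (5 : K)⁻¹ ∈ O := by
    have := hC (1 / 5)
    rw [h5, one_div] at this
    exact this
  have hn : ∀ n : ℕ, (n : K) ∈ O := fun n => natCast_mem O n
  have e : (fde a b v)⁻¹ - algebraMap ℂ K (1 / 5) =
      (-(5 : K)⁻¹ * (fde a b v)⁻¹) * (fde a b v - 5) := by
    rw [h5]
    field_simp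
    ring
  rw [e]
  refine aux_smul O I _ _ (O.mul_mem (O.neg_mem h5') hd) ?_
  generalize hw0 : fw0 a b v = w0 at *
  generalize hw1 : fw1 a b v = w1 at *
  have e2 : fde a b v - 5 = (((1 + 3 * w0 ^ 2) * (-4) + 3 * w0 + 4 * (-1 - 3 * w0 ^ 2)) * fkap w0 w1
      + 5 * (-4)) * w0 + ((-3 * w1 ^ 2 * (1 + 3 * w0 ^ 2)) * fkap w0 w1 + 5 * (-9 * w1 ^ 2)) * w1 := by
    unfold fde
    rw [hw0, hw1]
    unfold fDl fkap
    ring
  have hk : fkap w0 w1 ∈ O := by
    unfold fkap
    have h4 : (4 : K) ∈ O := by exact_mod_cast hn 4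
    have h9 : (9 : K) ∈ O := by exact_mod_cast hn 9
    exact O.sub_mem (O.sub_mem O.one_mem (O.mul_mem h4 h0)) (O.mul_mem h9 (O.pow_mem h1 3))
  have h3 : (3 : K) ∈ O := by exact_mod_cast hn 3
  have h4 : (4 : K) ∈ O := by exact_mod_cast hn 4
  have h5'' : (5 : K) ∈ O := by exact_mod_cast hn 5
  have h9 : (9 : K) ∈ O := by exact_mod_cast hn 9
  rw [e2]
  refine I.add_mem (aux_smul O I _ _ ?_ i0) (aux_smul O I _ _ ?_ i1)
  · repeat' first
      | assumption
      | exact O.one_mem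
      | apply O.add_mem
      | apply O.sub_mem
      | apply O.mul_mem
      | apply O.pow_mem
      | apply O.neg_mem
  · repeat' first
      | assumption
      | exact O.one_mem
      | apply O.add_mem
      | apply O.sub_mem
      | apply O.mul_mem
      | apply O.pow_mem
      | apply O.neg_mem

theorem aux0 (a b v : K) (hind : AlgebraicIndependent ℂ ![a, b, v]) (O : Subring K)
    (hO : IsLocAt (gd a b v 0).toSubring O) (x y z : K) (hx : InM O x) (hy : InM O y)
    (hz : InM O z) (I : Submodule O K) (hI : I = Submodule.span O ({x, y, z} : Set K))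
    (i1 : fs a b v ∈ I) (i2 : b * fs a b v ∈ I) (i3 : ft a b v ∈ I) (i4 : b * ft a b v ∈ I)
    (i5 : b ^ 2 * ft a b v ∈ I)
    (jp : ∃ c : ℂ, ft a b v / fs a b v - algebraMap ℂ K c ∈ I)
    (jq : ∃ c : ℂ, b * ft a b v / fs a b v - algebraMap ℂ K c ∈ I)
    (jr : ∃ c : ℂ, fs a b v ^ 2 / ft a b v - algebraMap ℂ K c ∈ I) :
    ∃ x y z : K, InM O x ∧ InM O y ∧ InM O z ∧
      ∀ f, InM O f → ∃ p ∈ O, ∃ q ∈ O, ∃ r ∈ O, f = p * x + q * y + r * z := by
  obtain ⟨ha0, hb0, hv0, hfc0, hw00, hw10, hw30, hs0, ht0, hde0⟩ := nz a b v hind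
  have hGO : ∀ g, g ∈ gd a b v 0 → g ∈ O := fun g hg => hO.1 hg
  have hBO : ∀ g, g ∈ BB a b v → g ∈ O := fun g hg => hGO g (BB_le_gd a b v 0 hg)
  obtain ⟨b0, b1, b3, b4, b5, b6, b7, b8, b9, b10, b11, b12, b13⟩ := BB_mem a b v
  have hC : ∀ c : ℂ, algebraMap ℂ K c ∈ O := fun c => hGO _ ((gd a b v 0).algebraMap_mem c)
  obtain ⟨k0, k1, k3, k5⟩ := idealC a b v hde0 O (hBO _ b0) (hBO _ b1) (hBO _ b3) (hBO _ b4)
    (hBO _ b6) hC I i1 i2 i3 i4 i5
  have kd := aux_de a b v hde0 O hC (hBO _ b0) (hBO _ b1) (hBO _ b6) I k0 k1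
  have hz0 : ∀ g, g ∈ I → ∃ c : ℂ, g - algebraMap ℂ K c ∈ I := fun g hg =>
    ⟨0, by rwa [map_zero, sub_zero]⟩
  subst hI
  refine three _ O hO x y z hx hy hz ?_
  rintro g (hg | hg)
  · rcases hg with rfl | rfl | rfl | rfl | rfl | hg
    · exact hz0 _ k0
    · exact hz0 _ k1
    · exact hz0 _ k3
    · exact hz0 _ i2
    · exact hz0 _ k5
    · rw [Set.mem_singleton_iff] at hg
      subst hg
      exact ⟨_, kd⟩
  · have hg' : g ∈ ({ft a b v / fs a b v, b * ft a b v / fs a b v, fs a b v ^ 2 / ft a b v} : Set K) := hg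
    rcases hg' with rfl | rfl | hg'
    · exact jp
    · exact jq
    · rw [Set.mem_singleton_iff] at hg'
      subst hg'
      exact jr

theorem over0 (a b v : K) (hind : AlgebraicIndependent ℂ ![a, b, v]) (O : Subring K)
    (hO : IsLocAt (gd a b v 0).toSubring O)
    (hcl : ∀ z ∈ O, ∃ c : ℂ, InM O (z - algebraMap ℂ K c))
    (m1 : InM O (fs a b v)) (m2 : InM O (b * fs a b v)) (m3 : InM O (ft a b v))
    (m4 : InM O (b ^ 2 * ft a b v)) :
    ∃ x y z : K, InM O x ∧ InM O y ∧ InM O z ∧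
      ∀ f, InM O f → ∃ p ∈ O, ∃ q ∈ O, ∃ r ∈ O, f = p * x + q * y + r * z := by
  obtain ⟨ha0, hb0, hv0, hfc0, hw00, hw10, hw30, hs0, ht0, hde0⟩ := nz a b v hind
  have hGO : ∀ g, g ∈ gd a b v 0 → g ∈ O := fun g hg => hO.1 hg
  obtain ⟨⟨gp, gq, gr⟩, -⟩ := gd_gens a b v
  have hp := hGO _ gp
  have hq := hGO _ gq
  have hr := hGO _ gr
  set p := ft a b v / fs a b v with hpdef
  set q := b * ft a b v / fs a b v with hqdef
  set r := fs a b v ^ 2 / ft a b v with hrdef
  have es : fs a b v = p * r := by rw [hpdef, hrdef]; field_simp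
  have ebs : b * fs a b v = q * r := by rw [hqdef, hrdef]; field_simp
  have et : ft a b v = p * p * r := by rw [hpdef, hrdef]; field_simp
  have ebt : b * ft a b v = p * q * r := by rw [hpdef, hqdef, hrdef]; field_simp
  have ebbt : b ^ 2 * ft a b v = q * q * r := by rw [hqdef, hrdef]; field_simp
  have hr0 : r ≠ 0 := div_ne_zero (pow_ne_zero 2 hs0) ht0
  have hp0 : p ≠ 0 := div_ne_zero ht0 hs0
  have hq0 : q ≠ 0 := div_ne_zero (mul_ne_zero hb0 ht0) hs0
  by_cases hru : r⁻¹ ∈ O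
  · -- `r` is a unit
    have hpM : InM O p := by
      refine ⟨hp, Or.inr fun h => ?_⟩
      rcases m1.2 with h1 | h1
      · exact hs0 h1
      · apply h1
        rw [es, mul_inv]
        exact O.mul_mem h hru
    have hqM : InM O q := by
      refine ⟨hq, Or.inr fun h => ?_⟩
      rcases m2.2 with h1 | h1
      · exact mul_ne_zero hb0 hs0 h1
      · apply h1
        rw [ebs, mul_inv]
        exact O.mul_mem h hru
    obtain ⟨r0, hr0M⟩ := hcl r hr
    set I : Submodule O K := Submodule.span O ({p, q, r - algebraMap ℂ K r0} : Set K) with hI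
    have ip : p ∈ I := Submodule.subset_span (by simp)
    have iq : q ∈ I := Submodule.subset_span (by simp)
    have ir : r - algebraMap ℂ K r0 ∈ I := Submodule.subset_span (by simp)
    refine aux0 a b v hind O hO p q (r - algebraMap ℂ K r0) hpM hqM hr0M I hI ?_ ?_ ?_ ?_ ?_
      ⟨0, by rw [map_zero, sub_zero]; exact ip⟩ ⟨0, by rw [map_zero, sub_zero]; exact iq⟩ ⟨r0, ir⟩
    · rw [es, mul_comm]; exact aux_smul O I _ _ hr ip
    · rw [ebs, mul_comm]; exact aux_smul O I _ _ hr iq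
    · rw [et, mul_assoc, mul_comm]
      exact aux_smul O I _ _ (O.mul_mem hp hr) ip
    · rw [ebt, mul_assoc, mul_comm]
      exact aux_smul O I _ _ (O.mul_mem hq hr) ip
    · rw [ebbt, mul_assoc, mul_comm]
      exact aux_smul O I _ _ (O.mul_mem hq hr) iq
  · have hrM : InM O r := ⟨hr, Or.inr hru⟩
    obtain ⟨p0, hp0M⟩ := hcl p hp
    obtain ⟨q0, hq0M⟩ := hcl q hq
    set I : Submodule O K := Submodule.span O
      ({r, p - algebraMap ℂ K p0, q - algebraMap ℂ K q0} : Set K) with hI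
    have ir : r ∈ I := Submodule.subset_span (by simp)
    have ip : p - algebraMap ℂ K p0 ∈ I := Submodule.subset_span (by simp)
    have iq : q - algebraMap ℂ K q0 ∈ I := Submodule.subset_span (by simp)
    refine aux0 a b v hind O hO r (p - algebraMap ℂ K p0) (q - algebraMap ℂ K q0) hrM hp0M hq0M I hI
      ?_ ?_ ?_ ?_ ?_ ⟨p0, ip⟩ ⟨q0, iq⟩ ⟨0, by rw [map_zero, sub_zero]; exact ir⟩
    · rw [es]; exact aux_smul O I _ _ hp ir
    · rw [ebs]; exact aux_smul O I _ _ hq ir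
    · rw [et]; exact aux_smul O I _ _ (O.mul_mem hp hp) ir
    · rw [ebt]; exact aux_smul O I _ _ (O.mul_mem hp hq) ir
    · rw [ebbt]; exact aux_smul O I _ _ (O.mul_mem hq hq) ir


end over0

alias over0 := over0.over0

end Pool.Agent.Helper447.D71.E
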