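import Pool.Agent.Helper819.ZE.Defs
import Pool.Agent.Helper819.ZE.L_nz
import Pool.Agent.Helper819.ZE.L_three
import Pool.Agent.Helper819.ZE.L_BB_mem
import Pool.Agent.Helper819.ZE.L_BB_le_gd
import Pool.Agent.Helper819.ZE.L_gd_gens
import Pool.Agent.Helper819.ZE.L_idealC

set_option autoImplicit false
set_option linter.unusedVariables false
set_option linter.unusedSectionVars false
set_option linter.dupNamespace false

namespace Pool.Agent.Helper447.D71.E
open Pool.Agent.Helper447.D71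
variable {K : Type*} [Field K] [Algebra ℂ K]

namespace over1


theorem over1 (a b v : K) (hind : AlgebraicIndependent ℂ ![a, b, v]) (O : Subring K)
    (hO : IsLocAt (gd a b v 1).toSubring O)
    (hcl : ∀ z ∈ O, ∃ c : ℂ, InM O (z - algebraMap ℂ K c))
    (m1 : InM O (fs a b v)) (m2 : InM O (b * fs a b v)) (m3 : InM O (ft a b v))
    (m4 : InM O (b ^ 2 * ft a b v)) :
    ∃ x y z : K, InM O x ∧ InM O y ∧ InM O z ∧
      ∀ f, InM O f → ∃ p ∈ O, ∃ q ∈ O, ∃ r ∈ O, f = p * x + q * y + r * z := by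
  obtain ⟨ha0, hb0, hv0, hfc0, hw00, hw10, hw30, hs0, ht0, hde0⟩ := nz a b v hind
  have hgO : ∀ x ∈ gd a b v 1, x ∈ O := fun x hx => hO.1 hx
  have hBO : ∀ x ∈ BB a b v, x ∈ O := fun x hx => hgO x (BB_le_gd a b v 1 hx)
  obtain ⟨e0, e1, e3, et1, et2, ed, es, ee2, ee3, et, ebt, ebbt, ede⟩ := BB_mem a b v
  have hC : ∀ c : ℂ, algebraMap ℂ K c ∈ O := fun c => hBO _ ((BB a b v).algebraMap_mem c)
  have hrho : ft a b v / fs a b v ^ 2 ∈ O := hgO _ (gd_gens a b v).2.1
  obtain ⟨c0, hc0⟩ := hcl _ hrho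
  set rho : K := ft a b v / fs a b v ^ 2 with hrhodef
  let I : Submodule O K := Submodule.span O
    ({fs a b v, b * fs a b v, rho - algebraMap ℂ K c0} : Set K)
  have smul_mem : ∀ x ∈ O, ∀ y ∈ I, x * y ∈ I := by
    intro x hx y hy
    have := I.smul_mem (⟨x, hx⟩ : O) hy
    exact this
  have i1 : fs a b v ∈ I := Submodule.subset_span (by simp)
  have i2 : b * fs a b v ∈ I := Submodule.subset_span (by simp)
  have i6 : rho - algebraMap ℂ K c0 ∈ I := Submodule.subset_span (by simp)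
  have hsO : fs a b v ∈ O := hBO _ es
  have hbsO : b * fs a b v ∈ O := hBO _ et1
  have i3 : ft a b v ∈ I := by
    have := smul_mem _ (O.mul_mem hrho hsO) _ i1
    have h : rho * fs a b v * fs a b v = ft a b v := by
      rw [hrhodef]; field_simp
    rwa [h] at this
  have i4 : b * ft a b v ∈ I := by
    have := smul_mem _ (O.mul_mem hrho hsO) _ i2
    have h : rho * fs a b v * (b * fs a b v) = b * ft a b v := by
      rw [hrhodef]; field_simp
    rwa [h] at this
  have i5 : b ^ 2 * ft a b v ∈ I := by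
    have := smul_mem _ (O.mul_mem hrho hbsO) _ i2
    have h : rho * (b * fs a b v) * (b * fs a b v) = b ^ 2 * ft a b v := by
      rw [hrhodef]; field_simp
    rwa [h] at this
  obtain ⟨w0, w1, w3, we⟩ := idealC a b v hde0 O (hBO _ e0) (hBO _ e1) (hBO _ e3) hbsO (hBO _ ed)
    hC I i1 i2 i3 i4 i5
  have hdeI : fde a b v - 5 ∈ I := by
    have h0O := hBO _ e0
    have h1O := hBO _ e1
    have hnat : ∀ n : ℕ, (n : K) ∈ O := fun n => natCast_mem O n
    -- fde - 5 = w0 * P + w1 * Q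
    have key : fde a b v - 5 =
        (-(4 : ℕ) * (1 + (3 : ℕ) * fw0 a b v ^ 2) * fkap (fw0 a b v) (fw1 a b v)
          + (3 : ℕ) * fw0 a b v * fkap (fw0 a b v) (fw1 a b v)
          + -(4 : ℕ) * (1 + (3 : ℕ) * fw0 a b v ^ 2) * fkap (fw0 a b v) (fw1 a b v) * 0
          + (4 : ℕ) * (-1 - (3 : ℕ) * fw0 a b v ^ 2) * fkap (fw0 a b v) (fw1 a b v)
          - (20 : ℕ)) * fw0 a b v
        + (-(3 : ℕ) * fw1 a b v ^ 2 * (1 + (3 : ℕ) * fw0 a b v ^ 2)
            * fkap (fw0 a b v) (fw1 a b v) - (45 : ℕ) * fw1 a b v ^ 2) * fw1 a b v := by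
      simp only [fde, fDl, fkap]
      push_cast
      ring
    rw [key]
    have hk : fkap (fw0 a b v) (fw1 a b v) ∈ O := by
      have : fkap (fw0 a b v) (fw1 a b v) = 1 - ((4 : ℕ) : K) * fw0 a b v
          - ((9 : ℕ) : K) * fw1 a b v ^ 3 := by
        simp only [fkap]; push_cast; ring
      rw [this]
      exact O.sub_mem (O.sub_mem O.one_mem (O.mul_mem (hnat 4) h0O))
        (O.mul_mem (hnat 9) (O.pow_mem h1O 3))
    have hq : (1 + ((3 : ℕ) : K) * fw0 a b v ^ 2) ∈ O :=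
      O.add_mem O.one_mem (O.mul_mem (hnat 3) (O.pow_mem h0O 2))
    refine I.add_mem (smul_mem _ ?_ _ w0) (smul_mem _ ?_ _ w1)
    · refine O.sub_mem (O.add_mem (O.add_mem (O.add_mem ?_ ?_) ?_) ?_) (hnat 20)
      · exact O.mul_mem (O.mul_mem (O.neg_mem (hnat 4)) hq) hk
      · exact O.mul_mem (O.mul_mem (hnat 3) h0O) hk
      · exact O.mul_mem (O.mul_mem (O.mul_mem (O.neg_mem (hnat 4)) hq) hk) O.zero_mem
      · exact O.mul_mem (O.mul_mem (hnat 4) (O.sub_mem (O.neg_mem O.one_mem)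
          (O.mul_mem (hnat 3) (O.pow_mem h0O 2)))) hk
    · exact O.sub_mem (O.mul_mem (O.mul_mem (O.mul_mem (O.neg_mem (hnat 3)) (O.pow_mem h1O 2)) hq) hk)
        (O.mul_mem (hnat 45) (O.pow_mem h1O 2))
  have hinv : (fde a b v)⁻¹ - algebraMap ℂ K (1 / 5) ∈ I := by
    have h5' : algebraMap ℂ K 5 = 5 := map_ofNat (algebraMap ℂ K) 5
    have h5 : (5 : K) ≠ 0 := by
      rw [← h5', Ne, map_eq_zero]; norm_num
    have := smul_mem (-(algebraMap ℂ K (1 / 5)) * (fde a b v)⁻¹)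
      (O.mul_mem (O.neg_mem (hC _)) (hBO _ ed)) _ hdeI
    have h : -(algebraMap ℂ K (1 / 5)) * (fde a b v)⁻¹ * (fde a b v - 5)
        = (fde a b v)⁻¹ - algebraMap ℂ K (1 / 5) := by
      have h1 : algebraMap ℂ K (1 / 5) = 1 / 5 := by rw [map_div₀, map_one, h5']
      rw [h1]; field_simp; ring
    rwa [h] at this
  refine three _ O hO (fs a b v) (b * fs a b v) (rho - algebraMap ℂ K c0) m1 m2 hc0 ?_
  intro g hg
  rcases hg with hg | hg
  · simp only [Set.mem_insert_iff, Set.mem_singleton_iff] at hg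
    rcases hg with rfl | rfl | rfl | rfl | rfl | rfl
    · exact ⟨0, by simpa using w0⟩
    · exact ⟨0, by simpa using w1⟩
    · exact ⟨0, by simpa using w3⟩
    · exact ⟨0, by simpa using i2⟩
    · exact ⟨0, by simpa using we⟩
    · exact ⟨1 / 5, hinv⟩
  · have hg' : g = ft a b v / fs a b v ^ 2 := by simpa using hg
    subst hg'
    exact ⟨c0, i6⟩


end over1

alias over1 := over1.over1

end Pool.Agent.Helper447.D71.E
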