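import Pool.Agent.Helper819.ZE.Defs
import Pool.Agent.Helper819.ZE.L_nz
import Pool.Agent.Helper819.ZE.L_three
import Pool.Agent.Helper819.ZE.L_BB_mem
import Pool.Agent.Helper819.ZE.L_BB_le_gd
import Pool.Agent.Helper819.ZE.L_gd_gens
import Pool.Agent.Helper819.ZE.L_idealC

set_option autoImplicit false
set_option linter.unusedVariables false
set_option linter.unusedSectionVars false
set_option linter.dupNamespace false

namespace Pool.Agent.Helper447.D71.E
open Pool.Agent.Helper447.D71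
variable {K : Type*} [Field K] [Algebra ℂ K]

namespace over2


theorem over2 (a b v : K) (hind : AlgebraicIndependent ℂ ![a, b, v]) (O : Subring K)
    (hO : IsLocAt (gd a b v 2).toSubring O)
    (hcl : ∀ z ∈ O, ∃ c : ℂ, InM O (z - algebraMap ℂ K c))
    (m1 : InM O (fs a b v)) (m2 : InM O (b * fs a b v)) (m3 : InM O (ft a b v))
    (m4 : InM O (b ^ 2 * ft a b v)) :
    ∃ x y z : K, InM O x ∧ InM O y ∧ InM O z ∧
      ∀ f, InM O f → ∃ p ∈ O, ∃ q ∈ O, ∃ r ∈ O, f = p * x + q * y + r * z := by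
  obtain ⟨ha, hb, hv, hfc, hw0, hw1, hw3, hs, ht, hde⟩ := nz a b v hind
  have hle : ∀ x ∈ gd a b v 2, x ∈ O := fun x hx => hO.1 hx
  obtain ⟨g0, g1, g3, gbs, gbe, gdi, gs, ge2, ge3, gt, gbt, gb2t, gde⟩ := BB_mem a b v
  have hBB : ∀ x ∈ BB a b v, x ∈ O := fun x hx => hle x (BB_le_gd a b v 2 hx)
  have hC : ∀ c : ℂ, algebraMap ℂ K c ∈ O := fun c => hle _ ((gd a b v 2).algebraMap_mem c)
  have hB : b⁻¹ ∈ O := hle _ (gd_gens a b v).2.2.1.1
  have hmu : fs a b v / (b * ft a b v) ∈ O := hle _ (gd_gens a b v).2.2.1.2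
  obtain ⟨c1, hc1⟩ := hcl _ hB
  obtain ⟨c2, hc2⟩ := hcl _ hmu
  set x : K := b ^ 2 * ft a b v with hx
  set y : K := b⁻¹ - algebraMap ℂ K c1 with hy
  set z : K := fs a b v / (b * ft a b v) - algebraMap ℂ K c2 with hz
  have hI : ∀ r ∈ O, ∀ u ∈ Submodule.span O ({x, y, z} : Set K),
      r * u ∈ Submodule.span O ({x, y, z} : Set K) := fun r hr u hu =>
    (Submodule.span O ({x, y, z} : Set K)).smul_mem ⟨r, hr⟩ hu
  have ix : x ∈ Submodule.span O ({x, y, z} : Set K) := Submodule.subset_span (by simp)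
  have iy : y ∈ Submodule.span O ({x, y, z} : Set K) := Submodule.subset_span (by simp)
  have iz : z ∈ Submodule.span O ({x, y, z} : Set K) := Submodule.subset_span (by simp)
  have i2 : b * fs a b v ∈ Submodule.span O ({x, y, z} : Set K) := by
    have := hI _ hmu _ ix
    have e : fs a b v / (b * ft a b v) * x = b * fs a b v := by
      rw [hx]; field_simp
    rwa [e] at this
  have i1 : fs a b v ∈ Submodule.span O ({x, y, z} : Set K) := by
    have := hI _ hB _ i2
    have e : b⁻¹ * (b * fs a b v) = fs a b v := by field_simp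
    rwa [e] at this
  have i4 : b * ft a b v ∈ Submodule.span O ({x, y, z} : Set K) := by
    have := hI _ hB _ ix
    have e : b⁻¹ * x = b * ft a b v := by rw [hx]; field_simp
    rwa [e] at this
  have i3 : ft a b v ∈ Submodule.span O ({x, y, z} : Set K) := by
    have := hI _ hB _ i4
    have e : b⁻¹ * (b * ft a b v) = ft a b v := by field_simp
    rwa [e] at this
  obtain ⟨j0, j1, j3, je⟩ := idealC a b v hde O (hBB _ g0) (hBB _ g1) (hBB _ g3) (hBB _ gbs)
    (hBB _ gdi) hC _ i1 i2 i3 i4 ix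
  have j5 : fde a b v - 5 ∈ Submodule.span O ({x, y, z} : Set K) := by
    set X : O := ⟨fw0 a b v, hBB _ g0⟩ with hX
    set Y : O := ⟨fw1 a b v, hBB _ g1⟩ with hY
    have e : fde a b v - 5 =
        ((-8 + 3 * X * (1 - 4 * X - 3 * Y ^ 3) - 12 * X ^ 2) * (1 - 4 * X - 9 * Y ^ 3) - 20 : O) •
          fw0 a b v +
        ((-3 * Y ^ 2) * (1 - 4 * X - 9 * Y ^ 3) - 45 * Y ^ 2 : O) • fw1 a b v := by
      change fde a b v - 5 =
        ((-8 + 3 * fw0 a b v * (1 - 4 * fw0 a b v - 3 * fw1 a b v ^ 3) - 12 * fw0 a b v ^ 2) *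
          (1 - 4 * fw0 a b v - 9 * fw1 a b v ^ 3) - 20 : K) * fw0 a b v +
        ((-3 * fw1 a b v ^ 2) * (1 - 4 * fw0 a b v - 9 * fw1 a b v ^ 3) - 45 * fw1 a b v ^ 2 : K) *
          fw1 a b v
      unfold fde fDl fkap
      ring
    rw [e]
    exact Submodule.add_mem _ (Submodule.smul_mem _ _ j0) (Submodule.smul_mem _ _ j1)
  have j6 : (fde a b v)⁻¹ - algebraMap ℂ K (1 / 5) ∈ Submodule.span O ({x, y, z} : Set K) := by
    have h5 : (5 : K) ≠ 0 := by
      have : (5 : K) = algebraMap ℂ K 5 := (map_ofNat (algebraMap ℂ K) 5).symm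
      rw [this]
      exact (map_ne_zero_iff _ (algebraMap ℂ K).injective).mpr (by norm_num)
    have h6 : -(algebraMap ℂ K (1 / 5) * (fde a b v)⁻¹) ∈ O :=
      O.neg_mem (O.mul_mem (hC _) (hBB _ gdi))
    have := hI _ h6 _ j5
    have e : -(algebraMap ℂ K (1 / 5) * (fde a b v)⁻¹) * (fde a b v - 5) =
        (fde a b v)⁻¹ - algebraMap ℂ K (1 / 5) := by
      have e1 : algebraMap ℂ K (1 / 5) = 1 / 5 := by
        rw [map_div₀, map_one, map_ofNat]
      rw [e1]
      field_simp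
      ring
    rwa [e] at this
  have hzero : ∀ u ∈ Submodule.span O ({x, y, z} : Set K),
      ∃ c : ℂ, u - algebraMap ℂ K c ∈ Submodule.span O ({x, y, z} : Set K) := by
    intro u hu
    refine ⟨0, ?_⟩
    rw [map_zero, sub_zero]
    exact hu
  refine three _ O hO x y z m4 hc1 hc2 ?_
  intro g hg
  simp only [Set.mem_union, Set.mem_insert_iff, Set.mem_singleton_iff, Matrix.cons_val] at hg
  rcases hg with (rfl | rfl | rfl | rfl | rfl | rfl) | (rfl | rfl)
  · exact hzero _ j0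
  · exact hzero _ j1
  · exact hzero _ j3
  · exact hzero _ i2
  · exact hzero _ je
  · exact ⟨_, j6⟩
  · exact ⟨c1, iy⟩
  · exact ⟨c2, iz⟩



end over2

alias over2 := over2.over2

end Pool.Agent.Helper447.D71.E
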