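import Pool.Agent.Helper819.ZE.Defs
import Pool.Agent.Helper819.ZE.L_nz
import Pool.Agent.Helper819.ZE.L_three
import Pool.Agent.Helper819.ZE.L_BB_mem
import Pool.Agent.Helper819.ZE.L_BB_le_gd
import Pool.Agent.Helper819.ZE.L_gd_gens
import Pool.Agent.Helper819.ZE.L_idealC

set_option autoImplicit false
set_option linter.unusedVariables false
set_option linter.unusedSectionVars false
set_option linter.dupNamespace false

namespace Pool.Agent.Helper447.D71.E
open Pool.Agent.Helper447.D71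
variable {K : Type*} [Field K] [Algebra ℂ K]

namespace over3


theorem over3_coef (O : Subring K) (I : Submodule O K) {p x : K} (hp : p ∈ O) (hx : x ∈ I) :
    p * x ∈ I := by
  have h := I.smul_mem (⟨p, hp⟩ : O) hx
  exact h

theorem over3 (a b v : K) (hind : AlgebraicIndependent ℂ ![a, b, v]) (O : Subring K)
    (hO : IsLocAt (gd a b v 3).toSubring O)
    (hcl : ∀ z ∈ O, ∃ c : ℂ, InM O (z - algebraMap ℂ K c))
    (m1 : InM O (fs a b v)) (m2 : InM O (b * fs a b v)) (m3 : InM O (ft a b v))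
    (m4 : InM O (b ^ 2 * ft a b v)) :
    ∃ x y z : K, InM O x ∧ InM O y ∧ InM O z ∧
      ∀ f, InM O f → ∃ p ∈ O, ∃ q ∈ O, ∃ r ∈ O, f = p * x + q * y + r * z := by
  obtain ⟨ha0, hb0, hv0, hc0, hw0, hw1, hw3, hs0, ht0, hde0⟩ := nz a b v hind
  have hgd : ∀ x ∈ gd a b v 3, x ∈ O := fun x hx => hO.1 hx
  have hBB : ∀ x ∈ BB a b v, x ∈ O := fun x hx => hgd x (BB_le_gd a b v 3 hx)
  obtain ⟨B0, B1, B3, Bs, Be2, Bd, Bs', Be2', Be3', Bt, Bbt, Bbbt, Bde⟩ := BB_mem a b v
  obtain ⟨-, -, -, gb, gmu⟩ := gd_gens a b v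
  have hC : ∀ c : ℂ, algebraMap ℂ K c ∈ O := fun c => hgd _ ((gd a b v 3).algebraMap_mem c)
  obtain ⟨b0, hb⟩ := hcl b (hgd _ gb)
  obtain ⟨mu0, hmu⟩ := hcl (fs a b v / ft a b v) (hgd _ gmu)
  let I : Submodule O K := Submodule.span O
    ({ft a b v, b - algebraMap ℂ K b0, fs a b v / ft a b v - algebraMap ℂ K mu0} : Set K)
  have It : ft a b v ∈ I := Submodule.subset_span (by simp)
  have Ib : b - algebraMap ℂ K b0 ∈ I := Submodule.subset_span (by simp)
  have Imu : fs a b v / ft a b v - algebraMap ℂ K mu0 ∈ I := Submodule.subset_span (by simp)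
  have Is : fs a b v ∈ I := by
    have h := over3_coef O I (hgd _ gmu) It
    rwa [div_mul_cancel₀ _ ht0] at h
  have hbO : b ∈ O := hgd _ gb
  have Ibs : b * fs a b v ∈ I := over3_coef O I hbO Is
  have Ibt : b * ft a b v ∈ I := over3_coef O I hbO It
  have Ibbt : b ^ 2 * ft a b v ∈ I := over3_coef O I (O.pow_mem hbO 2) It
  obtain ⟨I0, I1, I3, Ie⟩ := idealC a b v hde0 O (hBB _ B0) (hBB _ B1) (hBB _ B3) (hBB _ Bs)
    (hBB _ Bd) hC I Is Ibs It Ibt Ibbt
  have hnat : ∀ n : ℕ, (n : K) ∈ O := fun n => natCast_mem O n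
  have hint : ∀ n : ℤ, (n : K) ∈ O := fun n => intCast_mem O n
  have hde : fde a b v - 5 ∈ I := by
    have hw0O := hBB _ B0
    have hw1O := hBB _ B1
    obtain ⟨x, hx⟩ : ∃ x, x = fw0 a b v := ⟨_, rfl⟩
    obtain ⟨y, hy⟩ : ∃ y, y = fw1 a b v := ⟨_, rfl⟩
    have hxO : x ∈ O := by rw [hx]; exact hw0O
    have hyO : y ∈ O := by rw [hy]; exact hw1O
    rw [← hx] at I0
    rw [← hy] at I1
    have hD : fDl x y - 5 = (((-8 : ℤ) : K) + ((3 : ℤ) : K) * x + ((-24 : ℤ) : K) * x ^ 2) * x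
        + (((-3 : ℤ) : K) * y ^ 2 + ((-9 : ℤ) : K) * x ^ 2 * y ^ 2) * y := by
      unfold fDl
      push_cast
      ring
    have hk : fkap x y - 1 = ((-4 : ℤ) : K) * x + (((-9 : ℤ) : K) * y ^ 2) * y := by
      unfold fkap
      push_cast
      ring
    have hDI : fDl x y - 5 ∈ I := by
      rw [hD]
      refine I.add_mem (over3_coef O I ?_ I0) (over3_coef O I ?_ I1)
      · exact O.add_mem (O.add_mem (hint _) (O.mul_mem (hint _) hxO))
          (O.mul_mem (hint _) (O.pow_mem hxO 2))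
      · exact O.add_mem (O.mul_mem (hint _) (O.pow_mem hyO 2))
          (O.mul_mem (O.mul_mem (hint _) (O.pow_mem hxO 2)) (O.pow_mem hyO 2))
    have hkI : fkap x y - 1 ∈ I := by
      rw [hk]
      refine I.add_mem (over3_coef O I (hint _) I0) (over3_coef O I ?_ I1)
      exact O.mul_mem (hint _) (O.pow_mem hyO 2)
    have hkO : fkap x y ∈ O := by
      have : fkap x y = ((1 : ℤ) : K) + ((-4 : ℤ) : K) * x + ((-9 : ℤ) : K) * y ^ 3 := by
        unfold fkap
        push_cast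
        ring
      rw [this]
      exact O.add_mem (O.add_mem (hint _) (O.mul_mem (hint _) hxO))
        (O.mul_mem (hint _) (O.pow_mem hyO 3))
    have e2 : fde a b v - 5 = fkap x y * (fDl x y - 5) + ((5 : ℤ) : K) * (fkap x y - 1) := by
      unfold fde
      rw [hx, hy]
      push_cast
      ring
    rw [e2]
    exact I.add_mem (over3_coef O I hkO hDI) (over3_coef O I (hint _) hkI)
  have h5 : (5 : K) ≠ 0 := by
    have : ((5 : ℂ) : ℂ) ≠ 0 := by norm_num
    have h := (map_ne_zero (algebraMap ℂ K)).mpr this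
    rwa [map_ofNat] at h
  have hdinv : (fde a b v)⁻¹ - algebraMap ℂ K (1 / 5) ∈ I := by
    have e3 : (fde a b v)⁻¹ - algebraMap ℂ K (1 / 5) =
        (algebraMap ℂ K (-1 / 5) * (fde a b v)⁻¹) * (fde a b v - 5) := by
      have e4 : algebraMap ℂ K (1 / 5) = 1 / 5 := by
        rw [map_div₀, map_one, map_ofNat]
      have e5 : algebraMap ℂ K (-1 / 5) = -1 / 5 := by
        rw [map_div₀, map_neg, map_one, map_ofNat]
      rw [e4, e5]
      field_simp
      ring
    rw [e3]
    exact over3_coef O I (O.mul_mem (hC _) (hBB _ Bd)) hde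
  refine three _ O hO (ft a b v) (b - algebraMap ℂ K b0)
    (fs a b v / ft a b v - algebraMap ℂ K mu0) m3 hb hmu ?_
  intro g hg
  rcases hg with hg | hg
  · simp only [Set.mem_insert_iff, Set.mem_singleton_iff] at hg
    rcases hg with rfl | rfl | rfl | rfl | rfl | rfl
    · exact ⟨0, by rw [map_zero, sub_zero]; exact I0⟩
    · exact ⟨0, by rw [map_zero, sub_zero]; exact I1⟩
    · exact ⟨0, by rw [map_zero, sub_zero]; exact I3⟩
    · exact ⟨0, by rw [map_zero, sub_zero]; exact Ibs⟩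
    · exact ⟨0, by rw [map_zero, sub_zero]; exact Ie⟩
    · exact ⟨1 / 5, hdinv⟩
  · change g ∈ ({b, fs a b v / ft a b v} : Set K) at hg
    simp only [Set.mem_insert_iff, Set.mem_singleton_iff] at hg
    rcases hg with rfl | rfl
    · exact ⟨b0, Ib⟩
    · exact ⟨mu0, Imu⟩



end over3

alias over3 := over3.over3

end Pool.Agent.Helper447.D71.E
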