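import Pool.Agent.Helper819.ZE.Defs
import Pool.Agent.Helper819.ZE.L_nz
import Pool.Agent.Helper819.ZE.L_Zsmooth
import Pool.Agent.Helper819.ZE.L_over0
import Pool.Agent.Helper819.ZE.L_over1
import Pool.Agent.Helper819.ZE.L_over2
import Pool.Agent.Helper819.ZE.L_over3
import Pool.Agent.Helper819.ZE.L_off0
import Pool.Agent.Helper819.ZE.L_off1
import Pool.Agent.Helper819.ZE.L_off2
import Pool.Agent.Helper819.ZE.L_off3
import Pool.Agent.Helper819.ZE.L_isLoc_of_Eqv
import Pool.Agent.Helper819.ZE.L_BB_mem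
import Pool.Agent.Helper819.ZE.L_BB_le_gd

set_option autoImplicit false
set_option linter.unusedVariables false
set_option linter.unusedSectionVars false
set_option linter.dupNamespace false

namespace Pool.Agent.Helper447.D71.E
open Pool.Agent.Helper447.D71
variable {K : Type*} [Field K] [Algebra ℂ K]

namespace E2smooth


theorem E2smooth (a b v : K) (hind : AlgebraicIndependent ℂ ![a, b, v])
    (A : Subalgebra ℂ K) (hA : A ∈ charts a b v) (O : Subring K) (hO : IsLocAt A.toSubring O)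
    (hcl : ∀ z ∈ O, ∃ c : ℂ, InM O (z - algebraMap ℂ K c)) :
    ∃ x y z : K, InM O x ∧ InM O y ∧ InM O z ∧
      ∀ f, InM O f → ∃ p ∈ O, ∃ q ∈ O, ∃ r ∈ O, f = p * x + q * y + r * z := by
  rcases hA with ⟨j, l, hl, rfl⟩ | ⟨i, rfl⟩
  · exact Zsmooth a b v hind j l O hO hcl
  · have hsub : ∀ x ∈ gd a b v i, x ∈ O := fun x hx => hO.1 hx
    by_cases hu : (fs a b v)⁻¹ ∈ O ∨ (b * fs a b v)⁻¹ ∈ O ∨ (ft a b v)⁻¹ ∈ O ∨
        (b ^ 2 * ft a b v)⁻¹ ∈ O
    · have hE : Eqv (gd a b v i) (ch a b v 0 2) O ∨ Eqv (gd a b v i) (ch a b v 1 2) O := by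
        fin_cases i
        · exact off0 a b v hind O hsub hu
        · exact off1 a b v hind O hsub hu
        · exact off2 a b v hind O hsub hu
        · exact off3 a b v hind O hsub hu
      rcases hE with h | h
      · exact Zsmooth a b v hind 0 2 O (isLoc_of_Eqv h hO) hcl
      · exact Zsmooth a b v hind 1 2 O (isLoc_of_Eqv h hO) hcl
    · rw [not_or, not_or, not_or] at hu
      obtain ⟨h1, h2, h3, h4⟩ := hu
      obtain ⟨-, -, -, b2, -, -, b1, -, -, b3, -, b4, -⟩ := BB_mem a b v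
      have hB : ∀ x ∈ BB a b v, x ∈ O := fun x hx => hsub x (BB_le_gd a b v i hx)
      have m1 : InM O (fs a b v) := ⟨hB _ b1, Or.inr h1⟩
      have m2 : InM O (b * fs a b v) := ⟨hB _ b2, Or.inr h2⟩
      have m3 : InM O (ft a b v) := ⟨hB _ b3, Or.inr h3⟩
      have m4 : InM O (b ^ 2 * ft a b v) := ⟨hB _ b4, Or.inr h4⟩
      fin_cases i
      · exact over0 a b v hind O hO hcl m1 m2 m3 m4
      · exact over1 a b v hind O hO hcl m1 m2 m3 m4
      · exact over2 a b v hind O hO hcl m1 m2 m3 m4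
      · exact over3 a b v hind O hO hcl m1 m2 m3 m4


end E2smooth

alias E2smooth := E2smooth.E2smooth

end Pool.Agent.Helper447.D71.E
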