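import Pool.Agent.Helper819.ZE.Defs
import Pool.Agent.Helper819.ZE.L_nz
import Pool.Agent.Helper819.ZE.L_ch_le

set_option autoImplicit false
set_option linter.unusedVariables false
set_option linter.unusedSectionVars false
set_option linter.dupNamespace false

namespace Pool.Agent.Helper447.D71.E
open Pool.Agent.Helper447.D71
variable {K : Type*} [Field K] [Algebra ℂ K]

namespace Z_V


theorem Z_V_max (V : ValuationSubring K) {n : ℕ} (f : Fin (n + 1) → K) (hf : ∀ i, f i ≠ 0) :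
    ∃ j, ∀ i, f i / f j ∈ V := by
  obtain ⟨j, -, hj⟩ := Finset.exists_max_image (Finset.univ : Finset (Fin (n + 1)))
    (fun i => V.valuation (f i)) ⟨0, Finset.mem_univ _⟩
  refine ⟨j, fun i => ?_⟩
  rw [← V.valuation_le_one_iff, map_div₀]
  exact div_le_one_of_le₀ (hj i (Finset.mem_univ i)) zero_le'

def Z_V_alg (V : ValuationSubring K) (hV : ∀ c : ℂ, algebraMap ℂ K c ∈ V) : Subalgebra ℂ K :=
  { V.toSubring with algebraMap_mem' := hV }

theorem Z_V (a b v : K) (hind : AlgebraicIndependent ℂ ![a, b, v])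
    (V : ValuationSubring K) (hV : ∀ c : ℂ, algebraMap ℂ K c ∈ V) :
    (∃ j, ∃ l, l ≠ 2 ∧ ∀ x ∈ ch a b v j l, x ∈ V) ∨
    (fw0 a b v ∈ V ∧ fw1 a b v ∈ V ∧ fw3 a b v ∈ V ∧
      (fw0 a b v)⁻¹ ∉ V ∧ (fw1 a b v)⁻¹ ∉ V ∧ (fw3 a b v)⁻¹ ∉ V) := by
  obtain ⟨ha, hb, hv, hc, h0, h1, h3, -, -, -⟩ := nz a b v hind
  have hxs : ∀ i, xs a b i ≠ 0 := by
    intro i; fin_cases i <;> simp [xs, ha, hb]
  have hws : ∀ i, ws a b v i ≠ 0 := by
    intro i; fin_cases i <;> simp [ws, h0, h1, h3]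
  obtain ⟨j, hj⟩ := Z_V_max V (xs a b) hxs
  have key : ∀ l, (∀ m, ws a b v m / ws a b v l ∈ V) → ∀ x ∈ ch a b v j l, x ∈ V := by
    intro l hl x hx
    exact (ch_le a b v (Z_V_alg V hV) j l hj hl) hx
  obtain ⟨l, hl⟩ := Z_V_max V (ws a b v) hws
  by_cases hl2 : l = 2
  · subst hl2
    have e2 : ws a b v 2 = 1 := rfl
    have hm : ∀ m, ws a b v m ∈ V := by
      intro m
      have := hl m
      rwa [e2, div_one] at this
    by_cases hex : ∃ m : Fin 4, m ≠ 2 ∧ (ws a b v m)⁻¹ ∈ V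
    · obtain ⟨m, hm2, hmi⟩ := hex
      left
      refine ⟨j, m, hm2, key m ?_⟩
      intro i
      rw [div_eq_mul_inv]
      exact V.mul_mem _ _ (hm i) hmi
    · right
      push Not at hex
      exact ⟨hm 0, hm 1, hm 3, hex 0 (by decide), hex 1 (by decide), hex 3 (by decide)⟩
  · left
    exact ⟨j, l, hl2, key l hl⟩


end Z_V

alias Z_V := Z_V.Z_V

end Pool.Agent.Helper447.D71.E
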