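import Pool.Agent.Helper819.ZE.Defs
import Pool.Agent.Helper819.ZE.L_nz
import Pool.Agent.Helper819.ZE.L_Cen_inv
import Pool.Agent.Helper819.ZE.L_Cen_trans

set_option autoImplicit false
set_option linter.unusedVariables false
set_option linter.unusedSectionVars false
set_option linter.dupNamespace false

namespace Pool.Agent.Helper447.D71.E
open Pool.Agent.Helper447.D71
variable {K : Type*} [Field K] [Algebra ℂ K]

namespace Eqv_trans


theorem Eqv_trans {A B C : Subalgebra ℂ K} {R : Subring K} (h : Eqv A B R) (h' : Eqv B C R) :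
    Eqv A C R := by
  exact ⟨h.1, h'.2.1, h.2.2.1.trans (Cen_trans C B R h'.2.2.1),
    h'.2.2.2.trans (Cen_trans A B R h.2.2.2)⟩


end Eqv_trans

alias Eqv_trans := Eqv_trans.Eqv_trans

end Pool.Agent.Helper447.D71.E
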