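import Pool.Agent.Helper819.ZE.Defs
import Pool.Agent.Helper819.ZE.L_nz
import Pool.Agent.Helper819.ZE.L_ch_gens
import Pool.Agent.Helper819.ZE.L_ch_le
import Pool.Agent.Helper819.ZE.L_Cen_le
import Pool.Agent.Helper819.ZE.L_Cen_inv

set_option autoImplicit false
set_option linter.unusedVariables false
set_option linter.unusedSectionVars false
set_option linter.dupNamespace false

namespace Pool.Agent.Helper447.D71.E
open Pool.Agent.Helper447.D71
variable {K : Type*} [Field K] [Algebra ℂ K]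

namespace Z_eqv


private theorem j29569_xs (a b v : K) (hind : AlgebraicIndependent ℂ ![a, b, v]) (j : Fin 3) :
    xs a b j ≠ 0 := by
  obtain ⟨ha, hb, -⟩ := nz a b v hind
  fin_cases j
  · exact one_ne_zero
  · exact hb
  · exact ha

private theorem j29569_ws (a b v : K) (hind : AlgebraicIndependent ℂ ![a, b, v]) (l : Fin 4) :
    ws a b v l ≠ 0 := by
  obtain ⟨-, -, -, -, h0, h1, h3, -⟩ := nz a b v hind
  fin_cases l
  · exact h0
  · exact h1
  · exact one_ne_zero
  · exact h3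

private theorem j29569_q (A : Subalgebra ℂ K) (R : Subring K) (x y z : K) (hx : x / z ∈ A)
    (hy : y / z ∈ A) (hy0 : y ≠ 0) (hz0 : z ≠ 0) (hR : z / y ∈ R) : x / y ∈ Cen A R := by
  have h1 : x / y = (x / z) * (y / z)⁻¹ := by
    field_simp
  rw [h1]
  refine mul_mem (Cen_le A R hx) (Cen_inv A R (Cen_le A R hy) (div_ne_zero hy0 hz0) ?_)
  rw [inv_div]
  exact hR

private theorem j29569_le (a b v : K) (hind : AlgebraicIndependent ℂ ![a, b, v]) (R : Subring K)
    (j j' : Fin 3) (l l' : Fin 4) (h : ∀ x ∈ ch a b v j l, x ∈ R) :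
    ch a b v j l ≤ Cen (ch a b v j' l') R := by
  obtain ⟨g1, g2⟩ := ch_gens a b v j l
  obtain ⟨g1', g2'⟩ := ch_gens a b v j' l'
  refine ch_le a b v _ j l (fun i => ?_) (fun m => ?_)
  · exact j29569_q _ R _ _ _ (g1' i) (g1' j) (j29569_xs a b v hind j) (j29569_xs a b v hind j')
      (h _ (g1 j'))
  · exact j29569_q _ R _ _ _ (g2' m) (g2' l) (j29569_ws a b v hind l) (j29569_ws a b v hind l')
      (h _ (g2 l'))

theorem Z_eqv (a b v : K) (hind : AlgebraicIndependent ℂ ![a, b, v]) (R : Subring K)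
    (j j' : Fin 3) (l l' : Fin 4) (h : ∀ x ∈ ch a b v j l, x ∈ R)
    (h' : ∀ x ∈ ch a b v j' l', x ∈ R) : Eqv (ch a b v j l) (ch a b v j' l') R := by
  exact ⟨h, h', j29569_le a b v hind R j j' l l' h, j29569_le a b v hind R j' j l' l h'⟩


end Z_eqv

alias Z_eqv := Z_eqv.Z_eqv

end Pool.Agent.Helper447.D71.E
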