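import Pool.Agent.Helper819.ZE.Defs
import Pool.Agent.Helper819.ZE.L_nz
import Pool.Agent.Helper819.ZE.L_Cen_inv
import Pool.Agent.Helper819.ZE.L_Cen_le
import Pool.Agent.Helper819.ZE.L_BB_mem
import Pool.Agent.Helper819.ZE.L_BB_le_gd
import Pool.Agent.Helper819.ZE.L_gd_gens
import Pool.Agent.Helper819.ZE.L_gd_le
import Pool.Agent.Helper819.ZE.L_Cen_sub

set_option autoImplicit false
set_option linter.unusedVariables false
set_option linter.unusedSectionVars false
set_option linter.dupNamespace false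

namespace Pool.Agent.Helper447.D71.E
open Pool.Agent.Helper447.D71
variable {K : Type*} [Field K] [Algebra ℂ K]

namespace pair01


theorem pair01 (a b v : K) (hind : AlgebraicIndependent ℂ ![a, b, v]) (R : Subring K)
    (h : ∀ x ∈ gd a b v 0, x ∈ R) (h' : ∀ x ∈ gd a b v 1, x ∈ R) :
    Eqv (gd a b v 0) (gd a b v 1) R := by
  obtain ⟨-, -, -, -, -, -, -, hs, ht, -⟩ := nz a b v hind
  obtain ⟨-, -, -, hbs, -, -, hsB, -, -, -, -, -, -⟩ := BB_mem a b v
  obtain ⟨⟨g1, g2, g3⟩, g4, -, -⟩ := gd_gens a b v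
  have hr : (fs a b v ^ 2 / ft a b v)⁻¹ = ft a b v / fs a b v ^ 2 := by rw [inv_div]
  have hr' : (ft a b v / fs a b v ^ 2)⁻¹ = fs a b v ^ 2 / ft a b v := by rw [inv_div]
  refine ⟨h, h', ?_, ?_⟩
  · apply (gd_le a b v (Cen (gd a b v 1) R) ((BB_le_gd a b v 1).trans (Cen_le _ _))).1
    · apply Cen_le
      have : ft a b v / fs a b v = ft a b v / fs a b v ^ 2 * fs a b v := by field_simp
      rw [this]
      exact Subalgebra.mul_mem _ g4 (BB_le_gd a b v 1 hsB)
    · apply Cen_le
      have : b * ft a b v / fs a b v = ft a b v / fs a b v ^ 2 * (b * fs a b v) := by field_simp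
      rw [this]
      exact Subalgebra.mul_mem _ g4 (BB_le_gd a b v 1 hbs)
    · rw [← hr']
      apply Cen_inv _ _ (Cen_le _ _ g4) (div_ne_zero ht (pow_ne_zero _ hs))
      rw [hr']
      exact h _ g3
  · apply (gd_le a b v (Cen (gd a b v 0) R) ((BB_le_gd a b v 0).trans (Cen_le _ _))).2.1
    rw [← hr]
    apply Cen_inv _ _ (Cen_le _ _ g3) (div_ne_zero (pow_ne_zero _ hs) ht)
    rw [hr]
    exact h' _ g4


end pair01

alias pair01 := pair01.pair01

end Pool.Agent.Helper447.D71.E
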