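import Pool.Agent.Helper819.ZE.Defs
import Pool.Agent.Helper819.ZE.L_nz
import Pool.Agent.Helper819.ZE.L_Cen_inv
import Pool.Agent.Helper819.ZE.L_Cen_le
import Pool.Agent.Helper819.ZE.L_BB_mem
import Pool.Agent.Helper819.ZE.L_BB_le_gd
import Pool.Agent.Helper819.ZE.L_gd_gens
import Pool.Agent.Helper819.ZE.L_gd_le
import Pool.Agent.Helper819.ZE.L_Cen_sub

set_option autoImplicit false
set_option linter.unusedVariables false
set_option linter.unusedSectionVars false
set_option linter.dupNamespace false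

namespace Pool.Agent.Helper447.D71.E
open Pool.Agent.Helper447.D71
variable {K : Type*} [Field K] [Algebra ℂ K]

namespace pair02


theorem pair02 (a b v : K) (hind : AlgebraicIndependent ℂ ![a, b, v]) (R : Subring K)
    (h : ∀ x ∈ gd a b v 0, x ∈ R) (h' : ∀ x ∈ gd a b v 2, x ∈ R) :
    Eqv (gd a b v 0) (gd a b v 2) R := by
  obtain ⟨_, hb, _, _, _, _, _, hs, ht, _⟩ := nz a b v hind
  obtain ⟨⟨g1, g2, g3⟩, _, ⟨g4, g5⟩, _⟩ := gd_gens a b v
  have hinv : (b * ft a b v / fs a b v)⁻¹ = fs a b v / (b * ft a b v) := by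
    rw [inv_div]
  have hinv2 : (fs a b v / (b * ft a b v))⁻¹ = b * ft a b v / fs a b v := by
    rw [inv_div]
  have hq0 : b * ft a b v / fs a b v ≠ 0 := div_ne_zero (mul_ne_zero hb ht) hs
  have hm0 : fs a b v / (b * ft a b v) ≠ 0 := div_ne_zero hs (mul_ne_zero hb ht)
  have hBB : b * fs a b v ∈ BB a b v := (BB_mem a b v).2.2.2.1
  refine ⟨h, h', ?_, ?_⟩
  · have hq : b * ft a b v / fs a b v ∈ Cen (gd a b v 2) R := by
      rw [← hinv2]
      exact Cen_inv _ _ (Cen_le _ _ g5) hm0 (by rw [hinv2]; exact h _ g2)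
    refine (gd_le a b v _ ((BB_le_gd a b v 2).trans (Cen_le _ _))).1 ?_ hq ?_
    · have e : ft a b v / fs a b v = (b * ft a b v / fs a b v) * b⁻¹ := by
        field_simp
      rw [e]
      exact Subalgebra.mul_mem _ hq (Cen_le _ _ g4)
    · have e : fs a b v ^ 2 / ft a b v = (fs a b v / (b * ft a b v)) * (b * fs a b v) := by
        field_simp
      rw [e]
      exact Subalgebra.mul_mem _ (Cen_le _ _ g5) (Cen_le _ _ (BB_le_gd a b v 2 hBB))
  · have hm : fs a b v / (b * ft a b v) ∈ Cen (gd a b v 0) R := by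
      rw [← hinv]
      exact Cen_inv _ _ (Cen_le _ _ g2) hq0 (by rw [hinv]; exact h' _ g5)
    refine (gd_le a b v _ ((BB_le_gd a b v 0).trans (Cen_le _ _))).2.2.1 ?_ hm
    have e : b⁻¹ = (ft a b v / fs a b v) * (fs a b v / (b * ft a b v)) := by
      field_simp
    rw [e]
    exact Subalgebra.mul_mem _ (Cen_le _ _ g1) hm


end pair02

alias pair02 := pair02.pair02

end Pool.Agent.Helper447.D71.E
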