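import Pool.Agent.Helper819.ZE.Defs
import Pool.Agent.Helper819.ZE.L_nz
import Pool.Agent.Helper819.ZE.L_idealC
import Pool.Agent.Helper819.ZE.L_BB_mem

set_option autoImplicit false
set_option linter.unusedVariables false
set_option linter.unusedSectionVars false
set_option linter.dupNamespace false

namespace Pool.Agent.Helper447.D71.E
open Pool.Agent.Helper447.D71
variable {K : Type*} [Field K] [Algebra ℂ K]

namespace unit_off


/-- the maximal ideal as a submodule -/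
def unit_off_I (R : Subring K) (hR : Loc R) : Submodule R K where
  carrier := {x | x ∈ R ∧ (x = 0 ∨ x⁻¹ ∉ R)}
  zero_mem' := ⟨R.zero_mem, Or.inl rfl⟩
  add_mem' := by
    rintro x y ⟨hx, hx'⟩ ⟨hy, hy'⟩
    refine ⟨R.add_mem hx hy, ?_⟩
    by_cases h0 : x + y = 0
    · exact Or.inl h0
    right
    intro hxy
    by_cases hx0 : x = 0
    · rw [hx0, zero_add] at hxy h0
      rcases hy' with h | h
      · exact h0 h
      · exact h hxy
    by_cases hy0 : y = 0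
    · rw [hy0, add_zero] at hxy h0
      rcases hx' with h | h
      · exact h0 h
      · exact h hxy
    have hxi : x⁻¹ ∉ R := hx'.resolve_left hx0
    have hyi : y⁻¹ ∉ R := hy'.resolve_left hy0
    rcases hR (x * (x + y)⁻¹) (R.mul_mem hx hxy) with h | h
    · apply hxi
      have h2 : x⁻¹ = (x * (x + y)⁻¹)⁻¹ * (x + y)⁻¹ := by
        field_simp
      rw [h2]
      exact R.mul_mem h hxy
    · apply hyi
      have h3 : 1 - x * (x + y)⁻¹ = y * (x + y)⁻¹ := by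
        field_simp
        ring
      rw [h3] at h
      have h2 : y⁻¹ = (y * (x + y)⁻¹)⁻¹ * (x + y)⁻¹ := by
        field_simp
      rw [h2]
      exact R.mul_mem h hxy
  smul_mem' := by
    rintro ⟨r, hr⟩ x ⟨hx, hx'⟩
    show r * x ∈ R ∧ (r * x = 0 ∨ (r * x)⁻¹ ∉ R)
    refine ⟨R.mul_mem hr hx, ?_⟩
    by_cases h0 : r * x = 0
    · exact Or.inl h0
    right
    intro hrx
    have hr0 : r ≠ 0 := left_ne_zero_of_mul h0
    have hx0 : x ≠ 0 := right_ne_zero_of_mul h0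
    apply hx'.resolve_left hx0
    have h2 : x⁻¹ = r * (r * x)⁻¹ := by
      field_simp
    rw [h2]
    exact R.mul_mem hr hrx

theorem unit_off_mem (R : Subring K) (hR : Loc R) (x : K) :
    x ∈ unit_off_I R hR ↔ x ∈ R ∧ (x = 0 ∨ x⁻¹ ∉ R) := Iff.rfl

theorem unit_off (a b v : K) (hind : AlgebraicIndependent ℂ ![a, b, v]) (R : Subring K)
    (hR : Loc R) (hB : ∀ x ∈ BB a b v, x ∈ R)
    (hw : (fw0 a b v)⁻¹ ∈ R ∨ (fw1 a b v)⁻¹ ∈ R ∨ (fw3 a b v)⁻¹ ∈ R) :
    (fs a b v)⁻¹ ∈ R ∨ (b * fs a b v)⁻¹ ∈ R ∨ (ft a b v)⁻¹ ∈ R ∨ (b ^ 2 * ft a b v)⁻¹ ∈ R := by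
  obtain ⟨-, hb, -, -, n0, n1, n3, ns, nt, nde⟩ := nz a b v hind
  obtain ⟨m0, m1, m3, mbs, -, mde, ms, -, -, mt, mbt, mbbt, -⟩ := BB_mem a b v
  by_contra hcon
  push Not at hcon
  obtain ⟨c1, c2, c3, c4⟩ := hcon
  have c5 : (b * ft a b v)⁻¹ ∉ R := by
    intro h
    apply c3
    have h2 : (ft a b v)⁻¹ = (b ^ 2 * ft a b v) * ((b * ft a b v)⁻¹ * (b * ft a b v)⁻¹) := by
      field_simp
    rw [h2]
    exact R.mul_mem (hB _ mbbt) (R.mul_mem h h)
  obtain ⟨k0, k1, k3, -⟩ := idealC a b v nde R (hB _ m0) (hB _ m1) (hB _ m3) (hB _ mbs) (hB _ mde)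
    (fun c => hB _ ((BB a b v).algebraMap_mem c)) (unit_off_I R hR)
    ((unit_off_mem R hR _).mpr ⟨hB _ ms, Or.inr c1⟩)
    ((unit_off_mem R hR _).mpr ⟨hB _ mbs, Or.inr c2⟩)
    ((unit_off_mem R hR _).mpr ⟨hB _ mt, Or.inr c3⟩)
    ((unit_off_mem R hR _).mpr ⟨hB _ mbt, Or.inr c5⟩)
    ((unit_off_mem R hR _).mpr ⟨hB _ mbbt, Or.inr c4⟩)
  rw [unit_off_mem] at k0 k1 k3
  rcases hw with h | h | h
  · exact (k0.2.resolve_left n0) h
  · exact (k1.2.resolve_left n1) h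
  · exact (k3.2.resolve_left n3) h


end unit_off

alias unit_off := unit_off.unit_off

end Pool.Agent.Helper447.D71.E
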