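import Pool.Agent.Helper819.ZE.Defs
import Pool.Agent.Helper819.ZE.L_nz
import Pool.Agent.Helper819.ZE.L_gd_gd
import Pool.Agent.Helper819.ZE.L_gd_off
import Pool.Agent.Helper819.ZE.L_Z_eqv
import Pool.Agent.Helper819.ZE.L_Eqv_symm
import Pool.Agent.Helper819.ZE.L_Eqv_trans
import Pool.Agent.Helper819.ZE.L_Cen_le
import Pool.Agent.Helper819.ZE.L_ch_gens
import Pool.Agent.Helper819.ZE.L_BB_le_gd
import Pool.Agent.Helper819.ZE.L_BB_mem

set_option autoImplicit false
set_option linter.unusedVariables false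
set_option linter.unusedSectionVars false
set_option linter.dupNamespace false

namespace Pool.Agent.Helper447.D71.E
open Pool.Agent.Helper447.D71
variable {K : Type*} [Field K] [Algebra ℂ K]

namespace all_eqv


theorem all_eqv_loc (V : ValuationSubring K) : Loc V.toSubring := by
  intro x hx
  by_contra hcon
  push Not at hcon
  obtain ⟨h1, h2⟩ := hcon
  have hx0 : x ≠ 0 := by
    rintro rfl
    rw [inv_zero] at h1
    exact h1 V.toSubring.zero_mem
  have hy0 : 1 - x ≠ 0 := by
    intro h0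
    rw [h0, inv_zero] at h2
    exact h2 V.toSubring.zero_mem
  rcases V.mem_or_inv_mem (x / (1 - x)) with h | h
  · apply h2
    have : (1 - x)⁻¹ = x / (1 - x) + 1 := by field_simp; ring
    rw [this]
    exact V.toSubring.add_mem h V.toSubring.one_mem
  · apply h1
    have : x⁻¹ = (x / (1 - x))⁻¹ + 1 := by field_simp; ring
    rw [this]
    exact V.toSubring.add_mem h V.toSubring.one_mem

theorem all_eqv_mix (a b v : K) (hind : AlgebraicIndependent ℂ ![a, b, v]) (V : ValuationSubring K)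
    (i : Fin 4) (j : Fin 3) (l : Fin 4) (hl : l ≠ 2)
    (h : ∀ x ∈ gd a b v i, x ∈ V) (h' : ∀ x ∈ ch a b v j l, x ∈ V) :
    Eqv (gd a b v i) (ch a b v j l) V.toSubring := by
  have hg := h' _ ((ch_gens a b v j l).2 2)
  have hw : (fw0 a b v)⁻¹ ∈ V.toSubring ∨ (fw1 a b v)⁻¹ ∈ V.toSubring ∨ (fw3 a b v)⁻¹ ∈ V.toSubring := by
    fin_cases l
    · left
      have : ws a b v 2 / ws a b v 0 = (fw0 a b v)⁻¹ := by simp [ws]
      rw [← this]; exact hg
    · right; left
      have : ws a b v 2 / ws a b v 1 = (fw1 a b v)⁻¹ := by simp [ws]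
      rw [← this]; exact hg
    · exact absurd rfl hl
    · right; right
      have : ws a b v 2 / ws a b v 3 = (fw3 a b v)⁻¹ := by simp [ws]
      rw [← this]; exact hg
  rcases gd_off a b v hind V.toSubring (all_eqv_loc V) i h hw with h1 | h1
  · exact Eqv_trans h1 (Z_eqv a b v hind V.toSubring 0 j 2 l h1.2.1 h')
  · exact Eqv_trans h1 (Z_eqv a b v hind V.toSubring 1 j 2 l h1.2.1 h')

theorem all_eqv (a b v : K) (hind : AlgebraicIndependent ℂ ![a, b, v]) (V : ValuationSubring K)
    (A B : Subalgebra ℂ K) (hA : A ∈ charts a b v) (hB : B ∈ charts a b v)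
    (h : ∀ x ∈ A, x ∈ V) (h' : ∀ x ∈ B, x ∈ V) : Eqv A B V.toSubring := by
  rcases hA with ⟨j, l, hl, rfl⟩ | ⟨i, rfl⟩
  · rcases hB with ⟨j', l', hl', rfl⟩ | ⟨i', rfl⟩
    · exact Z_eqv a b v hind V.toSubring j j' l l' h h'
    · exact Eqv_symm (all_eqv_mix a b v hind V i' j l hl h' h)
  · rcases hB with ⟨j', l', hl', rfl⟩ | ⟨i', rfl⟩
    · exact all_eqv_mix a b v hind V i j' l' hl' h h'
    · exact gd_gd a b v hind V.toSubring i i' h h'


end all_eqv

alias all_eqv := all_eqv.all_eqv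

end Pool.Agent.Helper447.D71.E
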