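import Pool.Agent.Helper819.ZE.L_Cen_inv
import Pool.Agent.Helper819.ZE.L_Cen_sub

set_option autoImplicit false
set_option linter.unusedVariables false
set_option linter.unusedSectionVars false
set_option linter.dupNamespace false

namespace Pool.Agent.Helper447.D71.E
open Pool.Agent.Helper447.D71
variable {K : Type*} [Field K] [Algebra ℂ K]

theorem eq_aux {A B : Subalgebra ℂ K} {V : ValuationSubring K}
    (hAB : A ≤ Cen B V.toSubring)
    {O O' : Subring K} (hO : IsLocAt A.toSubring O) (hO' : IsLocAt B.toSubring O')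
    (hd : Dom V.toSubring O) (hd' : Dom V.toSubring O') : O ≤ O' := by
  have hc : ∀ x ∈ Cen B V.toSubring, x ∈ O' := by
    rintro x ⟨p, hp, q, hq, h0, h1, h2⟩
    have hq' : q ∈ O' := hO'.1 hq
    have hqi : q⁻¹ ∈ O' := hd'.2 q hq' h1
    have : x = p * q⁻¹ := by rw [← h2]; field_simp
    rw [this]
    exact O'.mul_mem (hO'.1 hp) hqi
  intro z hz
  obtain ⟨x, hx, s, hs, h0, h1, h2⟩ := hO.2.2 z hz
  have hx' : x ∈ O' := hc x (hAB hx)
  have hs' : s ∈ O' := hc s (hAB hs)
  have hsi : s⁻¹ ∈ O' := hd'.2 s hs' (hd.1 h1)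
  have : z = x * s⁻¹ := by rw [← h2]; field_simp
  rw [this]
  exact O'.mul_mem hx' hsi

theorem eq_of_Eqv {A B : Subalgebra ℂ K} {V : ValuationSubring K} (h : Eqv A B V.toSubring)
    {O O' : Subring K} (hO : IsLocAt A.toSubring O) (hO' : IsLocAt B.toSubring O')
    (hd : Dom V.toSubring O) (hd' : Dom V.toSubring O') : O = O' :=
  le_antisymm (eq_aux h.2.2.1 hO hO' hd hd') (eq_aux h.2.2.2 hO' hO hd' hd)


end Pool.Agent.Helper447.D71.E
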