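import Pool.Agent.Helper447.D71.Charts
set_option autoImplicit false
namespace Pool.Agent.Helper447.D71

variable {K : Type*} [Field K] [Algebra ℂ K]

/-- the fractions `p / q`, `p q ∈ A`, whose denominator is a unit of the ring `R` -/
def Cen (A : Subalgebra ℂ K) (R : Subring K) : Subalgebra ℂ K where
  carrier := {x | ∃ p ∈ A, ∃ q ∈ A, q ≠ 0 ∧ q⁻¹ ∈ R ∧ x * q = p}
  mul_mem' := by
    rintro x y ⟨p, hp, q, hq, h0, h1, h2⟩ ⟨p', hp', q', hq', h0', h1', h2'⟩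
    exact ⟨p * p', A.mul_mem hp hp', q * q', A.mul_mem hq hq', mul_ne_zero h0 h0',
      by rw [mul_inv]; exact R.mul_mem h1 h1', by rw [← h2, ← h2']; ring⟩
  add_mem' := by
    rintro x y ⟨p, hp, q, hq, h0, h1, h2⟩ ⟨p', hp', q', hq', h0', h1', h2'⟩
    exact ⟨p * q' + p' * q, A.add_mem (A.mul_mem hp hq') (A.mul_mem hp' hq), q * q',
      A.mul_mem hq hq', mul_ne_zero h0 h0',
      by rw [mul_inv]; exact R.mul_mem h1 h1', by rw [← h2, ← h2']; ring⟩
  algebraMap_mem' := fun c => ⟨algebraMap ℂ K c, A.algebraMap_mem c, 1, A.one_mem, one_ne_zero,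
    by rw [inv_one]; exact R.one_mem, by rw [mul_one]⟩

/-- `A` and `B` have the same local ring at the centre of `R` -/
def Eqv (A B : Subalgebra ℂ K) (R : Subring K) : Prop :=
  (∀ x ∈ A, x ∈ R) ∧ (∀ x ∈ B, x ∈ R) ∧ A ≤ Cen B R ∧ B ≤ Cen A R

/-- the ring `B'_δ` as a subalgebra -/
def BB (a b v : K) : Subalgebra ℂ K :=
  Algebra.adjoin ℂ ({fw0 a b v, fw1 a b v, fw3 a b v, b * fs a b v, b * fe2 a b v,
    (fde a b v)⁻¹} : Set K)

end Pool.Agent.Helper447.D71
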